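import Pool.Agent.H36.GZ.Base
import Pool.Agent.H36.OX.Lat
import Pool.Agent.H36.OX.Val
import Pool.Agent.H36.OX.Frac
import Pool.Agent.H36.OX.AlmA
import Pool.Agent.H36.OX.AlmB
import Pool.Agent.H36.OX.AlmC
import Pool.Agent.H66.NCL.Fields
import Pool.Agent.H66.NCL.Ext

/-!
# Project GZ, module Alm: extension of automorphisms respecting the `D`-linear relations, and
almost commutative domains
-/

set_option autoImplicit false

namespace Pool.Agent.H36.GZ

open Pool.Agent.H66.NCL Pool.Agent.H36.OX Pool.Agent.H36.GX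

universe u

/-! ### extension of `R`-automorphisms to `D`-linear maps -/

section

variable {R D : Type u} [Ring R] [DivisionRing D] (j : R →+* D)

variable {N : ℕ} {W : Type u} [AddCommGroup W] [Module R W] (f : W →ₗ[R] (Fin N → R))

/-- the map `w ↦ j (f w)` -/
private def repJf : W →+ (Fin N → D) where
  toFun w n := j (f w n)
  map_zero' := by
    funext n
    simp
  map_add' := by
    intro a b
    funext n
    simp

private theorem repJf_smul (x : R) (w : W) : repJf j f (x • w) = j x • repJf j f w := by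
  funext n
  simp [repJf]

private theorem repJf_inj (hj : Function.Injective j) (hf : Function.Injective f) : Function.Injective (repJf j f) := by
  intro a b h
  apply hf
  funext n
  apply hj
  exact congrFun h n

private theorem rep_key (g : W → W) (hg : RespRel j f g) {r : ℕ} (v : Fin r → W) (c : Fin r → D)
    (w : W) (h : repJf j f w = ∑ k, c k • repJf j f (v k)) :
    repJf j f (g w) = ∑ k, c k • repJf j f (g (v k)) := by
  have h1 := hg (r + 1) (Fin.cons w v) (Fin.cons 1 fun k => - c k) (by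
    intro n
    rw [Fin.sum_univ_succ]
    simp only [Fin.cons_zero, Fin.cons_succ, one_mul, neg_mul, Finset.sum_neg_distrib]
    have h2 := congrFun h n
    rw [Finset.sum_apply] at h2
    rw [add_neg_eq_zero]
    exact h2)
  funext n
  have h3 := h1 n
  rw [Fin.sum_univ_succ] at h3
  simp only [Fin.cons_zero, Fin.cons_succ, one_mul, neg_mul, Finset.sum_neg_distrib] at h3
  rw [add_neg_eq_zero] at h3
  rw [Finset.sum_apply]
  exact h3

/-- a basis of the span among the vectors `jf w` -/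
private theorem rep_basis : ∃ (r : ℕ) (v : Fin r → W), LinearIndependent D (fun k => repJf j f (v k)) ∧
    ∀ w, repJf j f w ∈ Submodule.span D (Set.range fun k => repJf j f (v k)) := by
  classical
  obtain ⟨b, hb, hspan, hli⟩ := exists_linearIndependent D (Set.range (repJf j f))
  have hfin : Finite b := hli.finite
  obtain ⟨r, ⟨e⟩⟩ := Finite.exists_equiv_fin b
  have h1 : ∀ k : Fin r, ∃ w, repJf j f w = (e.symm k : Fin N → D) := fun k => hb (e.symm k).2
  choose v hv using h1
  have h2 : (fun k => repJf j f (v k)) = (fun x : b => (x : Fin N → D)) ∘ e.symm := by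
    funext k
    exact hv k
  refine ⟨r, v, ?_, ?_⟩
  · rw [h2]
    exact hli.comp _ e.symm.injective
  · intro w
    rw [h2, Set.range_comp, e.symm.surjective.range_eq, Set.image_univ, Subtype.range_coe, hspan]
    exact Submodule.subset_span ⟨w, rfl⟩

end

theorem exists_repD {R D : Type u} [Ring R] [DivisionRing D] (j : R →+* D)
    (hj : Function.Injective j) {N : ℕ} {W : Type u} [AddCommGroup W] [Module R W]
    (f : W →ₗ[R] (Fin N → R)) (hf : Function.Injective f) {H : Type u} [Group H]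
    (τ : H →* (W ≃ₗ[R] W)) (hτ : ∀ h, RespRel j f (τ h)) :
    ∃ (r : ℕ) (ρ : H →* (Matrix (Fin r) (Fin r) D)ˣ) (κ : W →+ (Fin r → D)) (v : Fin r → W)
      (β : Fin r → Fin N → D), (∀ (x : R) w, κ (x • w) = j x • κ w) ∧
      (∀ h w, κ (τ h w) = Matrix.vecMul (κ w) (ρ h⁻¹).val) ∧
      (∀ k, κ (v k) = Pi.single k 1) ∧ (∀ w n, j (f w n) = ∑ k, κ w k * β k n) := by
  classical
  obtain ⟨r, v, hli, hsp⟩ := rep_basis j f
  -- the coordinates
  let κ : W →+ (Fin r → D) :=
    { toFun := fun w => ⇑(hli.repr ⟨repJf j f w, hsp w⟩)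
      map_zero' := by
        have h : (⟨repJf j f 0, hsp 0⟩ : Submodule.span D (Set.range fun k => repJf j f (v k))) = 0 := by
          apply Subtype.ext
          simp
        rw [h, map_zero]
        rfl
      map_add' := by
        intro a b
        have h : (⟨repJf j f (a + b), hsp (a + b)⟩ : Submodule.span D (Set.range fun k => repJf j f (v k)))
            = ⟨repJf j f a, hsp a⟩ + ⟨repJf j f b, hsp b⟩ := by
          apply Subtype.ext
          simp
        rw [h, map_add]
        rfl }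
  have hκ : ∀ w, κ w = ⇑(hli.repr ⟨repJf j f w, hsp w⟩) := fun _ => rfl
  have hsmul : ∀ (x : R) w, κ (x • w) = j x • κ w := by
    intro x w
    have h : (⟨repJf j f (x • w), hsp (x • w)⟩ : Submodule.span D (Set.range fun k => repJf j f (v k)))
        = j x • ⟨repJf j f w, hsp w⟩ := by
      apply Subtype.ext
      rw [Submodule.coe_smul]
      exact repJf_smul j f x w
    rw [hκ, hκ, h, map_smul]
    rfl
  have hsum : ∀ w, repJf j f w = ∑ k, κ w k • repJf j f (v k) := by
    intro w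
    have h := hli.linearCombination_repr ⟨repJf j f w, hsp w⟩
    rw [Finsupp.linearCombination_apply, Finsupp.sum_fintype _ _ (fun i => zero_smul D (repJf j f (v i)))] at h
    exact h.symm
  have huniq : ∀ (c : Fin r → D) (w : W), repJf j f w = ∑ k, c k • repJf j f (v k) → κ w = c := by
    intro c w h
    have h1 : ∑ k, (κ w k - c k) • repJf j f (v k) = 0 := by
      simp_rw [sub_smul]
      rw [Finset.sum_sub_distrib, ← h, ← hsum, sub_self]
    have h2 := Fintype.linearIndependent_iff.1 hli _ h1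
    funext k
    exact sub_eq_zero.1 (h2 k)
  have hsingle : ∀ k, κ (v k) = Pi.single k 1 := by
    intro k
    apply huniq
    rw [Finset.sum_eq_single k]
    · simp
    · intro b _ hb
      rw [Pi.single_eq_of_ne hb, zero_smul]
    · simp
  -- the matrices
  let M : H → Matrix (Fin r) (Fin r) D := fun h => Matrix.of fun k => κ (τ h (v k))
  have hM : ∀ h w, κ (τ h w) = Matrix.vecMul (κ w) (M h) := by
    intro h w
    apply huniq
    have h1 := rep_key j f (τ h) (hτ h) v (κ w) w (hsum w)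
    have h2 : repJf j f (τ h w) = ∑ k, κ w k • repJf j f (τ h (v k)) := h1
    rw [h2]
    calc ∑ k, κ w k • repJf j f (τ h (v k))
        = ∑ k, κ w k • ∑ l, κ (τ h (v k)) l • repJf j f (v l) :=
          Finset.sum_congr rfl fun k _ => by rw [← hsum]
      _ = ∑ k, ∑ l, (κ w k * κ (τ h (v k)) l) • repJf j f (v l) := by
          refine Finset.sum_congr rfl fun k _ => ?_
          rw [Finset.smul_sum]
          exact Finset.sum_congr rfl fun l _ => smul_smul _ _ _
      _ = ∑ l, ∑ k, (κ w k * κ (τ h (v k)) l) • repJf j f (v l) := Finset.sum_comm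
      _ = ∑ l, Matrix.vecMul (κ w) (M h) l • repJf j f (v l) := by
          refine Finset.sum_congr rfl fun l _ => ?_
          rw [← Finset.sum_smul]
          rfl
  have hM1 : M 1 = 1 := by
    ext k l
    change κ (τ 1 (v k)) l = _
    rw [map_one]
    change κ (v k) l = _
    rw [hsingle, Matrix.one_apply, Pi.single_apply]
    by_cases h : k = l
    · rw [if_pos h, if_pos h.symm]
    · rw [if_neg h, if_neg (fun h' => h h'.symm)]
  have hMm : ∀ h h', M (h * h') = M h' * M h := by
    intro h h'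
    ext k l
    change κ (τ (h * h') (v k)) l = _
    rw [map_mul]
    change κ (τ h (τ h' (v k))) l = _
    rw [hM]
    rfl
  let ρ : H →* (Matrix (Fin r) (Fin r) D)ˣ :=
    { toFun := fun h => ⟨M h⁻¹, M h, by rw [← hMm, mul_inv_cancel, hM1], by rw [← hMm, inv_mul_cancel, hM1]⟩
      map_one' := by
        apply Units.ext
        change M (1 : H)⁻¹ = 1
        rw [inv_one, hM1]
      map_mul' := by
        intro h h'
        apply Units.ext
        change M (h * h')⁻¹ = M h⁻¹ * M h'⁻¹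
        rw [mul_inv_rev, hMm] }
  refine ⟨r, ρ, κ, v, fun k n => j (f (v k) n), hsmul, ?_, hsingle, ?_⟩
  · intro h w
    have h1 : (ρ h⁻¹).val = M h := by
      change M (h⁻¹)⁻¹ = M h
      rw [inv_inv]
    rw [h1, hM]
  · intro w n
    have h1 := congrFun (hsum w) n
    rw [Finset.sum_apply] at h1
    exact h1

/-! ### almost commutative domains -/

section
variable {D : Type u} [DivisionRing D] {nv : D → ℝ}

private theorem al_one (h : IsUltra nv) : nv 1 = 1 := by
  have h1 : nv 1 ≠ 0 := fun hh => one_ne_zero ((h.eq_zero 1).mp hh)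
  exact mul_right_cancel₀ h1 (by rw [← h.mul, one_mul, one_mul])

private theorem al_pow (h : IsUltra nv) (x : D) (n : ℕ) : nv (x ^ n) = nv x ^ n := by
  induction n with
  | zero => rw [pow_zero, pow_zero, al_one h]
  | succ n ih => rw [pow_succ, pow_succ, h.mul, ih]

private theorem al_sum (h : IsUltra nv) {α : Type*} (s : Finset α) (f : α → D) {C : ℝ}
    (hC : 0 ≤ C) (hf : ∀ x ∈ s, nv (f x) ≤ C) : nv (∑ x ∈ s, f x) ≤ C := by
  classical
  induction s using Finset.induction_on with
  | empty => rw [Finset.sum_empty, (h.eq_zero 0).mpr rfl]; exact hC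
  | insert a s ha ih =>
    rw [Finset.sum_insert ha]
    refine (h.add_le_max _ _).trans (max_le (hf a (Finset.mem_insert_self _ _)) ?_)
    exact ih fun x hx => hf x (Finset.mem_insert_of_mem hx)

end

theorem PMD.almost {A D : Type u} [Ring A] [DivisionRing D] (j : A →+* D)
    (hj : Function.Injective j) (nv : D → ℝ) (hD : IsDisc nv) (h1 : ∀ x : A, x ≠ 0 → 1 ≤ nv (j x))
    (hc : ∀ x y : D, x ≠ 0 → y ≠ 0 → nv (x * y - y * x) < nv x * nv y) : PMD j := by
  classical
  intro N W _ _ f hf H _ τ hτ hrel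
  obtain ⟨r, ρ, κ, v, β, hκs, hκτ, hκv, hβ⟩ := exists_repD j hj f hf τ hrel
  have hU : IsUltra nv := hD.toIsUltra
  obtain ⟨ϖ, hϖ0, hϖ1, hd⟩ := hD.disc
  have hϖ : ϖ ≠ 0 := fun hh => by
    rw [hh, (hU.eq_zero 0).mpr rfl] at hϖ0
    exact lt_irrefl _ hϖ0
  refine ce_of_lat hD ρ fun M hM => ?_
  obtain ⟨K, _, m, θ, hθ⟩ := exists_residue hU ϖ hϖ0 hϖ1 hd hc ρ M hM
  refine CE.extension θ (P_field K m) ?_
  -- the kernel
  obtain ⟨b, hb0, hb⟩ := hM.ball
  obtain ⟨C, hC⟩ := hM.bdd
  obtain ⟨p, hp⟩ := exists_pow_lt_of_lt_one hb0 hϖ1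
  -- `κ w ∈ ϖ ^ (i - p) M`
  let F' : ℕ → AddSubgroup W := fun i =>
    { carrier := {w | ∃ y ∈ M, ϖ ^ p • κ w = ϖ ^ i • y}
      zero_mem' := ⟨0, M.zero_mem, by rw [map_zero, smul_zero, smul_zero]⟩
      add_mem' := by
        rintro a c ⟨y, hy, hy'⟩ ⟨z, hz, hz'⟩
        exact ⟨y + z, M.add_mem hy hz, by rw [map_add, smul_add, smul_add, hy', hz']⟩
      neg_mem' := by
        rintro a ⟨y, hy, hy'⟩
        exact ⟨-y, M.neg_mem hy, by rw [map_neg, smul_neg, smul_neg, hy']⟩ }
  have hF' : ∀ i w, w ∈ F' i ↔ ∃ y ∈ M, ϖ ^ p • κ w = ϖ ^ i • y := fun _ _ => Iff.rfl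
  let W' : AddSubgroup W := F' 0
  have hanti' : Antitone F' := by
    intro i i' hii w hw
    obtain ⟨y, hy, hy'⟩ := (hF' _ _).mp hw
    refine (hF' _ _).mpr ⟨ϖ ^ (i' - i) • y, hM.smul _ ?_ _ hy, ?_⟩
    · rw [al_pow hU]
      exact pow_le_one₀ hϖ0.le hϖ1.le
    · rw [smul_smul, ← pow_add, Nat.add_sub_cancel' hii, hy']
  -- the stabilizer preserves `F' i`
  have hstab : ∀ (s : stabL ρ M) (i : ℕ) (w : W), w ∈ F' i → τ s.1 w ∈ F' i := by
    rintro s i w ⟨y, hy, hy'⟩
    refine ⟨Matrix.vecMul y (ρ s.1⁻¹).val, ((stabL ρ M).inv_mem s.2 _).mpr hy, ?_⟩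
    rw [hκτ, ← Matrix.smul_vecMul, hy', Matrix.smul_vecMul]
  have hker : ∀ (s : θ.ker) (i : ℕ) (w : W), w ∈ F' i → τ s.1.1 w - w ∈ F' (i + 1) := by
    rintro s i w ⟨y, hy, hy'⟩
    have hs : θ s.1⁻¹ = 1 := by
      rw [map_inv, show θ s.1 = 1 from s.2, inv_one]
    obtain ⟨z, hz, hz'⟩ := hθ s.1⁻¹ hs y hy
    refine ⟨z, hz, ?_⟩
    have h3 : (ρ (s.1⁻¹ : stabL ρ M).1).val = (ρ (s.1.1)⁻¹).val := by
      rw [Subgroup.coe_inv]
    rw [h3] at hz'
    rw [map_sub, hκτ, smul_sub, ← Matrix.smul_vecMul, hy', Matrix.smul_vecMul, ← smul_sub, hz',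
      smul_smul, pow_succ]
  have hinv : ∀ (s : θ.ker) (w : W), τ (s⁻¹ : θ.ker).1.1 (τ s.1.1 w) = w := by
    intro s w
    have h3 : (τ (s⁻¹ : θ.ker).1.1 * τ s.1.1) w = w := by
      rw [← map_mul]
      have h4 : (s⁻¹ : θ.ker).1.1 * s.1.1 = 1 := by
        rw [Subgroup.coe_inv, Subgroup.coe_inv, inv_mul_cancel]
      rw [h4, map_one]
      rfl
    exact h3
  have hinv' : ∀ (s : θ.ker) (w : W), τ s.1.1 (τ (s⁻¹ : θ.ker).1.1 w) = w := by
    intro s w
    have h3 := hinv s⁻¹ w
    rwa [inv_inv] at h3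
  let τ' : θ.ker →* (W' ≃ₗ[ℤ] W') :=
    { toFun := fun s =>
        AddEquiv.toIntLinearEquiv
        { toFun := fun w => ⟨τ s.1.1 w.1, hstab s.1 0 w.1 w.2⟩
          map_add' := fun a b => Subtype.ext (map_add (τ s.1.1) a.1 b.1)
          invFun := fun w => ⟨τ (s⁻¹ : θ.ker).1.1 w.1, hstab (s⁻¹ : θ.ker).1 0 w.1 w.2⟩
          left_inv := fun w => Subtype.ext (hinv s w.1)
          right_inv := fun w => Subtype.ext (hinv' s w.1) }
      map_one' := by
        ext w
        show τ (1 : θ.ker).1.1 w.1 = w.1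
        rw [Subgroup.coe_one, Subgroup.coe_one, map_one]
        rfl
      map_mul' := fun a b => by
        ext w
        show τ (a * b : θ.ker).1.1 w.1 = τ a.1.1 (τ b.1.1 w.1)
        rw [Subgroup.coe_mul, Subgroup.coe_mul, map_mul]
        rfl }
  have hτ'1 : ∀ (s : θ.ker) (w : W'), (τ' s w).1 = τ s.1.1 w.1 := fun _ _ => rfl
  have hv : ∀ k, v k ∈ W' := by
    intro k
    refine ⟨ϖ ^ p • κ (v k), ?_, by rw [pow_zero, one_smul]⟩
    rw [hκv]
    refine hb _ fun i => ?_
    show nv (ϖ ^ p * (Pi.single k 1 : Fin r → D) i) ≤ b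
    by_cases hik : i = k
    · rw [hik, Pi.single_eq_same, mul_one, al_pow hU]
      exact hp.le
    · rw [Pi.single_eq_of_ne hik, mul_zero, (hU.eq_zero 0).mpr rfl]
      exact hb0.le
  have hτ' : Function.Injective τ' := by
    intro s s' hss
    have h3 : ∀ k, τ s.1.1 (v k) = τ s'.1.1 (v k) := by
      intro k
      have h4 := congrArg (fun z : W' ≃ₗ[ℤ] W' => (z ⟨v k, hv k⟩).1) hss
      exact h4
    have h5 : (ρ (s.1.1)⁻¹).val = (ρ (s'.1.1)⁻¹).val := by
      ext k l
      have h6 := congrArg κ (h3 k)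
      rw [hκτ, hκτ, hκv, Matrix.single_one_vecMul, Matrix.single_one_vecMul] at h6
      exact congrFun h6 l
    refine Subtype.ext (Subtype.ext (hτ (LinearEquiv.ext fun w => hf (funext fun n => hj ?_))))
    rw [hβ, hβ, hκτ, hκτ, h5]
  -- the filtration is finite: `κ w` small forces `w = 0`
  obtain ⟨B, hB0, hB⟩ : ∃ B : ℝ, 0 < B ∧ ∀ k n, nv (β k n) ≤ B := by
    refine ⟨1 + ∑ k, ∑ n, nv (β k n), ?_, fun k n => ?_⟩
    · have : 0 ≤ ∑ k, ∑ n, nv (β k n) :=
        Finset.sum_nonneg fun i _ => Finset.sum_nonneg fun j _ => hU.nonneg _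
      linarith
    · have h3 : nv (β k n) ≤ ∑ n, nv (β k n) :=
        Finset.single_le_sum (f := fun n => nv (β k n)) (fun j _ => hU.nonneg _) (Finset.mem_univ n)
      have h4 : ∑ n, nv (β k n) ≤ ∑ k, ∑ n, nv (β k n) :=
        Finset.single_le_sum (f := fun k => ∑ n, nv (β k n))
          (fun i _ => Finset.sum_nonneg fun j _ => hU.nonneg _) (Finset.mem_univ k)
      linarith
  have hC0 : 0 < |C| + 1 := by positivity
  obtain ⟨q, hq⟩ := exists_pow_lt_of_lt_one (show (0 : ℝ) < 1 / ((|C| + 1) * B) by positivity) hϖ1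
  have hbot : ∀ w, w ∈ F' (p + q) → w = 0 := by
    rintro w ⟨y, hy, hy'⟩
    have h3 : κ w = ϖ ^ q • y := by
      have h4 : (ϖ ^ p)⁻¹ • (ϖ ^ p • κ w) = (ϖ ^ p)⁻¹ • (ϖ ^ (p + q) • y) := by rw [hy']
      rw [smul_smul, smul_smul, inv_mul_cancel₀ (pow_ne_zero _ hϖ), one_smul, pow_add,
        inv_mul_cancel_left₀ (pow_ne_zero _ hϖ)] at h4
      exact h4
    apply hf
    rw [map_zero]
    funext n
    by_contra hne
    have h5 := h1 _ hne
    rw [hβ] at h5
    have h6 : nv (∑ k, κ w k * β k n) ≤ nv ϖ ^ q * (|C| + 1) * B := by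
      refine al_sum hU _ _ (by positivity) fun k _ => ?_
      rw [hU.mul, h3]
      show nv (ϖ ^ q * y k) * _ ≤ _
      rw [hU.mul, al_pow hU]
      have h7 : nv (y k) ≤ |C| + 1 := by
        have := (hC y hy k).trans (le_abs_self C)
        linarith
      refine mul_le_mul (mul_le_mul_of_nonneg_left h7 (by positivity)) (hB k n) (hU.nonneg _)
        (by positivity)
    have h8 : nv ϖ ^ q * (|C| + 1) * B < 1 := by
      rw [lt_div_iff₀ (by positivity)] at hq
      rw [mul_assoc]
      exact hq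
    linarith
  refine ce_of_unipotent τ' hτ' (fun i => (F' i).comap W'.subtype) (p + q) ?_ ?_ ?_ ?_
  · ext w
    exact ⟨fun _ => AddSubgroup.mem_top w, fun _ => w.2⟩
  · ext w
    constructor
    · intro hw
      exact (AddSubgroup.mem_bot).mpr (Subtype.ext (hbot _ hw))
    · intro hw
      rw [AddSubgroup.mem_bot] at hw
      rw [hw]
      exact AddSubgroup.zero_mem _
  · intro i i' hii w hw
    exact hanti' hii hw
  · intro s i w hw
    exact hker s i w.1 hw

end Pool.Agent.H36.GZ
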