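import Pool.Agent.H36.GZ.Defs
import Pool.Agent.H36.OX.Base
import Pool.Agent.H36.OX.Val
import Pool.Agent.H36.GX.ClsBase

/-!
# Project GZ: auxiliary definitions (not used in the statement)
-/

set_option autoImplicit false

namespace Pool.Agent.H36.GZ

open Pool.Agent.H66.NCL Pool.Agent.H36.OX Pool.Agent.H36.GX

universe u

/-- The additive map `g` of `W` respects the `D`-linear relations between the vectors `j (f w)`. -/
def RespRel {R D W : Type u} [Ring R] [DivisionRing D] (j : R →+* D) {N : ℕ} (f : W → Fin N → R)
    (g : W → W) : Prop :=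
  ∀ (m : ℕ) (w : Fin m → W) (c : Fin m → D), (∀ n, ∑ k, c k * j (f (w k) n) = 0) →
    ∀ n, ∑ k, c k * j (f (g (w k)) n) = 0

/-- The groups of automorphisms of submodules of free left `R`-modules of finite rank, which respect the
`D`-linear relations, are exact. For the division ring of fractions of an Ore domain this is `PM`. -/
def PMD {R D : Type u} [Ring R] [DivisionRing D] (j : R →+* D) : Prop :=
  ∀ (N : ℕ) (W : Type u) [AddCommGroup W] [Module R W] (f : W →ₗ[R] (Fin N → R)),
    Function.Injective f → ∀ (H : Type u) [Group H] (τ : H →* (W ≃ₗ[R] W)), Function.Injective τ →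
      (∀ h, RespRel j f (τ h)) → CE.{u, u} H

/-- every element of `D` is a left fraction of elements of `R` -/
def IsFrac {R D : Type u} [Ring R] [DivisionRing D] (j : R →+* D) : Prop :=
  Function.Injective j ∧ ∀ d : D, ∃ s : R, s ≠ 0 ∧ ∃ a, j s * d = j a

/-- `PMD` for the group rings `A[N]` in the division rings of fractions of `E[N]` -/
def GrpPMD {A E : Type u} [Ring A] [DivisionRing E] (q : A →+* E) (N : Type u) [Group N] : Prop :=
  ∀ (D : Type u) [DivisionRing D] (J : MonoidAlgebra E N →+* D), IsFrac J →
    PMD (J.comp (MonoidAlgebra.mapRingHom N q))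

end Pool.Agent.H36.GZ
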