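import Pool.Agent.H36.GZ.Base

/-!
# Project GZ: bounded sequences modulo null sequences along an ultrafilter
-/

set_option autoImplicit false

namespace Pool.Agent.H36.GZ

open Pool.Agent.H66.NCL Pool.Agent.H36.OX Pool.Agent.H36.GX

open Filter Topology

universe u

private theorem sq_one {S : Type u} [Ring S] {mu : S → ℝ} (h : IsVal mu) : mu 1 = 1 := by
  obtain ⟨t, ht⟩ := h.gen
  have h1 := h.mul t 1
  rw [mul_one] at h1
  have h2 : mu t ≠ 0 := by
    rcases ht with ht | ht <;> rw [ht] <;> norm_num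
  exact (mul_eq_left₀ h2).1 h1.symm

private theorem sq_neg {S : Type u} [Ring S] {mu : S → ℝ} (h : IsVal mu) (x : S) :
    mu (-x) = mu x := by
  have h1 : mu (-1 : S) * mu (-1) = 1 := by
    rw [← h.mul, neg_mul_neg, mul_one, sq_one h]
  have h2 : mu (-1 : S) = 1 := by
    rcases mul_self_eq_one_iff.1 h1 with h3 | h3
    · exact h3
    · have := h.nonneg (-1)
      linarith
  rw [← neg_one_mul, h.mul, h2, one_mul]

/-- sequences which are bounded along the ultrafilter -/
private def sqB {S : Type u} [Ring S] {mu : S → ℝ} (h : IsVal mu) : Subring (ℕ → S) where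
  carrier := {x | ∃ C : ℝ, ∀ᶠ m in (hyperfilter ℕ : Filter ℕ), mu (x m) ≤ C}
  mul_mem' := by
    rintro a b ⟨C, hC⟩ ⟨D, hD⟩
    refine ⟨C * D, ?_⟩
    filter_upwards [hC, hD] with m h1 h2
    rw [Pi.mul_apply, h.mul]
    exact mul_le_mul h1 h2 (h.nonneg _) ((h.nonneg _).trans h1)
  one_mem' := ⟨1, Eventually.of_forall fun m => by rw [Pi.one_apply, sq_one h]⟩
  add_mem' := by
    rintro a b ⟨C, hC⟩ ⟨D, hD⟩
    refine ⟨max C D, ?_⟩
    filter_upwards [hC, hD] with m h1 h2
    rw [Pi.add_apply]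
    exact (h.add_le_max _ _).trans (max_le_max h1 h2)
  zero_mem' := ⟨0, Eventually.of_forall fun m => by rw [Pi.zero_apply, h.zero]⟩
  neg_mem' := by
    rintro a ⟨C, hC⟩
    refine ⟨C, ?_⟩
    filter_upwards [hC] with m h1
    rw [Pi.neg_apply, sq_neg h]
    exact h1

/-- null sequences -/
private def sqI {S : Type u} [Ring S] {mu : S → ℝ} (h : IsVal mu) : Ideal (sqB h) where
  carrier := {x | Tendsto (fun m => mu (x.1 m)) (hyperfilter ℕ : Filter ℕ) (𝓝 0)}
  add_mem' := by
    intro a b ha hb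
    have h1 := ha.max hb
    rw [max_self] at h1
    exact squeeze_zero (fun m => h.nonneg _) (fun m => h.add_le_max _ _) h1
  zero_mem' := by
    have h1 : (fun m => mu ((0 : sqB h).1 m)) = fun _ => 0 := funext fun m => h.zero
    show Tendsto (fun m => mu ((0 : sqB h).1 m)) _ _
    rw [h1]
    exact tendsto_const_nhds
  smul_mem' := by
    rintro ⟨a, C, hC⟩ ⟨x, hx0⟩ hx
    have h1 : Tendsto (fun m => C * mu (x m)) (hyperfilter ℕ : Filter ℕ) (𝓝 0) := by
      have := Tendsto.const_mul C hx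
      rwa [mul_zero] at this
    refine squeeze_zero' (Eventually.of_forall fun m => h.nonneg _) ?_ h1
    filter_upwards [hC] with m h2
    show mu (a m * x m) ≤ C * mu (x m)
    rw [h.mul]
    exact mul_le_mul_of_nonneg_right h2 (h.nonneg _)

private theorem sq_memI {S : Type u} [Ring S] {mu : S → ℝ} (h : IsVal mu) (x : sqB h) :
    x ∈ sqI h ↔ Tendsto (fun m => mu (x.1 m)) (hyperfilter ℕ : Filter ℕ) (𝓝 0) := Iff.rfl

private instance sq_two {S : Type u} [Ring S] {mu : S → ℝ} (h : IsVal mu) :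
    (sqI h).IsTwoSided where
  mul_mem_of_left := by
    rintro ⟨x, hx0⟩ ⟨a, C, hC⟩ hx
    have h1 : Tendsto (fun m => mu (x m) * C) (hyperfilter ℕ : Filter ℕ) (𝓝 0) := by
      have := Tendsto.mul_const C hx
      rwa [zero_mul] at this
    refine squeeze_zero' (Eventually.of_forall fun m => h.nonneg _) ?_ h1
    filter_upwards [hC] with m h2
    show mu (x m * a m) ≤ mu (x m) * C
    rw [h.mul]
    exact mul_le_mul_of_nonneg_left h2 (h.nonneg _)

private theorem sq_lim {S : Type u} [Ring S] {mu : S → ℝ} (h : IsVal mu) (x : sqB h) :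
    ∃ r : ℝ, Tendsto (fun m => mu (x.1 m)) (hyperfilter ℕ : Filter ℕ) (𝓝 r) := by
  obtain ⟨C, hC⟩ := x.2
  have h1 : Set.Icc 0 C ∈ (hyperfilter ℕ).map (fun m => mu (x.1 m)) := by
    rw [Ultrafilter.mem_map]
    filter_upwards [hC] with m h2
    exact ⟨h.nonneg _, h2⟩
  obtain ⟨r, -, hr⟩ := isCompact_Icc.ultrafilter_le_nhds' _ h1
  exact ⟨r, hr⟩

private theorem sq_pow {S : Type u} [Ring S] {mu : S → ℝ} (h : IsVal mu) {x : ℕ → S} {r : ℝ}
    (hr : Tendsto (fun m => mu (x m)) (hyperfilter ℕ : Filter ℕ) (𝓝 r)) (h0 : r ≠ 0) :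
    ∃ k : ℤ, r = 2 ^ k ∧ ∀ᶠ m in (hyperfilter ℕ : Filter ℕ), mu (x m) = 2 ^ k := by
  have h1 : 0 ≤ r := ge_of_tendsto' hr fun m => h.nonneg _
  have h2 : 0 < r := lt_of_le_of_ne h1 (Ne.symm h0)
  obtain ⟨k, hk1, hk2⟩ := exists_mem_Ico_zpow h2 (one_lt_two)
  have h3 : (2 : ℝ) ^ (k - 1) < r :=
    lt_of_lt_of_le (zpow_lt_zpow_right₀ one_lt_two (by omega)) hk1
  have h4 : ∀ᶠ m in (hyperfilter ℕ : Filter ℕ), mu (x m) = 2 ^ k := by
    filter_upwards [hr.eventually_lt_const hk2, hr.eventually_const_lt h3] with m h5 h6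
    have h7 : x m ≠ 0 := by
      intro h8
      rw [h8, h.zero] at h6
      have : (0 : ℝ) < 2 ^ (k - 1) := by positivity
      linarith
    obtain ⟨j, hj⟩ := h.pow _ h7
    rw [hj] at h5 h6 ⊢
    have h8 := (zpow_lt_zpow_iff_right₀ (one_lt_two (α := ℝ))).1 h5
    have h9 := (zpow_lt_zpow_iff_right₀ (one_lt_two (α := ℝ))).1 h6
    rw [show j = k by omega]
  refine ⟨k, ?_, h4⟩
  refine tendsto_nhds_unique hr ?_
  refine Tendsto.congr' ?_ tendsto_const_nhds
  filter_upwards [h4] with m h5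
  exact h5.symm

private noncomputable def sqNu {S : Type u} [Ring S] {mu : S → ℝ} (h : IsVal mu)
    (b : sqB h ⧸ sqI h) : ℝ :=
  Classical.choose (sq_lim h (Classical.choose (Ideal.Quotient.mk_surjective b)))

private theorem sq_tendsto {S : Type u} [Ring S] {mu : S → ℝ} (h : IsVal mu) (x : sqB h) :
    Tendsto (fun m => mu (x.1 m)) (hyperfilter ℕ : Filter ℕ)
      (𝓝 (sqNu h (Ideal.Quotient.mk (sqI h) x))) := by
  obtain ⟨b, hb⟩ : ∃ b, b = Ideal.Quotient.mk (sqI h) x := ⟨_, rfl⟩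
  obtain ⟨y, hy⟩ : ∃ y, y = Classical.choose (Ideal.Quotient.mk_surjective b) := ⟨_, rfl⟩
  have hyb : Ideal.Quotient.mk (sqI h) y = b := by
    rw [hy]
    exact Classical.choose_spec (Ideal.Quotient.mk_surjective b)
  have hlim : Tendsto (fun m => mu (y.1 m)) (hyperfilter ℕ : Filter ℕ) (𝓝 (sqNu h b)) := by
    rw [hy]
    exact Classical.choose_spec (sq_lim h (Classical.choose (Ideal.Quotient.mk_surjective b)))
  rw [← hb]
  have h1 : x - y ∈ sqI h := by
    rw [← Ideal.Quotient.mk_eq_mk_iff_sub_mem, hyb, hb]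
  have h2 : Tendsto (fun m => mu (x.1 m - y.1 m)) (hyperfilter ℕ : Filter ℕ) (𝓝 0) := h1
  have h3 : ∀ a b : S, mu a ≤ mu (a - b) + mu b := by
    intro a b
    have h4 := h.add_le_max (a - b) b
    rw [sub_add_cancel] at h4
    exact h4.trans (max_le (by have := h.nonneg b; linarith) (by have := h.nonneg (a - b); linarith))
  have h5 : Tendsto (fun m => mu (x.1 m) - mu (y.1 m)) (hyperfilter ℕ : Filter ℕ) (𝓝 0) := by
    refine squeeze_zero_norm (fun m => ?_) h2
    rw [Real.norm_eq_abs, abs_le]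
    constructor
    · have h6 := h3 (y.1 m) (x.1 m)
      rw [← neg_sub, sq_neg h] at h6
      linarith
    · have h6 := h3 (x.1 m) (y.1 m)
      linarith
  have h6 := h5.add hlim
  rw [zero_add] at h6
  refine h6.congr fun m => ?_
  rw [sub_add_cancel]

private theorem sq_eq {S : Type u} [Ring S] {mu : S → ℝ} (h : IsVal mu) (x : sqB h) {r : ℝ}
    (hr : Tendsto (fun m => mu (x.1 m)) (hyperfilter ℕ : Filter ℕ) (𝓝 r)) :
    sqNu h (Ideal.Quotient.mk (sqI h) x) = r :=
  tendsto_nhds_unique (sq_tendsto h x) hr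

private theorem sq_ne {S : Type u} [Ring S] {mu : S → ℝ} (h : IsVal mu) {b : sqB h ⧸ sqI h}
    (hb : b ≠ 0) : sqNu h b ≠ 0 := by
  obtain ⟨x, rfl⟩ := Ideal.Quotient.mk_surjective b
  intro h1
  apply hb
  rw [Ideal.Quotient.eq_zero_iff_mem, sq_memI]
  have h2 := sq_tendsto h x
  rwa [h1] at h2

/-- constant sequences -/
private def sqC {S : Type u} [Ring S] {mu : S → ℝ} (h : IsVal mu) : S →+* sqB h where
  toFun x := ⟨fun _ => x, mu x, Eventually.of_forall fun _ => le_rfl⟩
  map_one' := rfl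
  map_mul' _ _ := rfl
  map_zero' := rfl
  map_add' _ _ := rfl

private theorem sq_isVal {S : Type u} [Ring S] {mu : S → ℝ} (h : IsVal mu) : IsVal (sqNu h) where
  zero := by
    rw [← map_zero (Ideal.Quotient.mk (sqI h))]
    apply sq_eq
    have h1 : (fun m => mu ((0 : sqB h).1 m)) = fun _ => 0 := funext fun m => h.zero
    rw [h1]
    exact tendsto_const_nhds
  pow := by
    intro b hb
    have h1 := sq_ne h hb
    obtain ⟨x, rfl⟩ := Ideal.Quotient.mk_surjective b
    obtain ⟨k, hk, -⟩ := sq_pow h (sq_tendsto h x) h1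
    exact ⟨k, hk⟩
  mul := by
    intro a b
    obtain ⟨x, rfl⟩ := Ideal.Quotient.mk_surjective a
    obtain ⟨y, rfl⟩ := Ideal.Quotient.mk_surjective b
    rw [← map_mul]
    apply sq_eq
    refine ((sq_tendsto h x).mul (sq_tendsto h y)).congr fun m => ?_
    exact (h.mul _ _).symm
  add_le_max := by
    intro a b
    obtain ⟨x, rfl⟩ := Ideal.Quotient.mk_surjective a
    obtain ⟨y, rfl⟩ := Ideal.Quotient.mk_surjective b
    rw [← map_add]
    exact le_of_tendsto_of_tendsto' (sq_tendsto h (x + y))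
      ((sq_tendsto h x).max (sq_tendsto h y)) fun m => h.add_le_max _ _
  gen := by
    obtain ⟨t, ht⟩ := h.gen
    refine ⟨Ideal.Quotient.mk (sqI h) (sqC h t), ?_⟩
    rw [sq_eq h (sqC h t) (r := mu t) tendsto_const_nhds]
    exact ht

private theorem sq_ore {S : Type u} [Ring S] {mu : S → ℝ} (h : IsVal mu)
    (hc : ∀ x y, mu (x * y - y * x) ≤ mu x * mu y / 2) {s : S} (hs : mu s = 1) (r : S) (m : ℕ) :
    ∃ u e, s ^ m * r = u * s + e ∧ mu u ≤ mu r ∧ mu e ≤ (1 / 2) ^ m * mu r := by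
  induction m with
  | zero =>
    refine ⟨0, r, by rw [pow_zero, one_mul, zero_mul, zero_add], ?_, ?_⟩
    · rw [h.zero]
      exact h.nonneg r
    · rw [pow_zero, one_mul]
  | succ m ih =>
    obtain ⟨u, e, h1, h2, h3⟩ := ih
    have h4 : mu e ≤ mu r := by
      refine h3.trans ?_
      have h5 : (1 / 2 : ℝ) ^ m ≤ 1 := pow_le_one₀ (by norm_num) (by norm_num)
      have := h.nonneg r
      nlinarith
    refine ⟨s * u + e, s * e - e * s, ?_, ?_, ?_⟩
    · rw [pow_succ', mul_assoc, h1]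
      noncomm_ring
    · refine (h.add_le_max _ _).trans (max_le ?_ h4)
      rw [h.mul, hs, one_mul]
      exact h2
    · refine (hc s e).trans ?_
      rw [hs, one_mul, pow_succ]
      linarith

theorem exists_seq {S : Type u} [Ring S] {dS : S → ℤ} (h : IsDeg dS) (t t' : S) (htt : t * t' = 1)
    (ht : ∀ x, t * x = x * t) (ht1 : dS t = 1)
    (hc : ∀ x y, x * y ≠ y * x → dS (x * y - y * x) < dS x + dS y) :
    ∃ (B : Type u) (_ : Ring B) (c : S →+* B) (nu : B → ℝ), IsVal nu ∧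
      (∀ x, nu (c x) = degNu dS x) ∧
      (∀ x y, x ≠ 0 → y ≠ 0 → nu (x * y - y * x) < nu x * nu y) ∧
      ∀ x y : B, y ≠ 0 → ∃ u v, v ≠ 0 ∧ v * x = u * y := by
  have hv := h.isVal
  have hc2 : ∀ x y, degNu dS (x * y - y * x) ≤ degNu dS x * degNu dS y / 2 := by
    intro x y
    by_cases hxy : x * y = y * x
    · rw [hxy, sub_self, degNu_zero]
      have := mul_nonneg (hv.nonneg x) (hv.nonneg y)
      linarith
    have hx : x ≠ 0 := by
      rintro rfl
      exact hxy (by rw [zero_mul, mul_zero])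
    have hy : y ≠ 0 := by
      rintro rfl
      exact hxy (by rw [zero_mul, mul_zero])
    have h1 := hc x y hxy
    rw [degNu_ne dS (sub_ne_zero.2 hxy), degNu_ne dS hx, degNu_ne dS hy, ← zpow_add₀ (by norm_num),
      show (2 : ℝ) ^ (dS x + dS y) / 2 = 2 ^ (dS x + dS y - 1) by
        rw [zpow_sub₀ (by norm_num), zpow_one]]
    exact zpow_le_zpow_right₀ (by norm_num) (by omega)
  have hfst : ∀ s x : sqB hv ⧸ sqI hv, sqNu hv s = 1 → ∃ u v, v ≠ 0 ∧ v * x = u * s := by
    intro s x hs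
    obtain ⟨s0, rfl⟩ := Ideal.Quotient.mk_surjective s
    obtain ⟨r, rfl⟩ := Ideal.Quotient.mk_surjective x
    have h1 := sq_tendsto hv s0
    rw [hs] at h1
    obtain ⟨k, hk, hk'⟩ := sq_pow hv h1 one_ne_zero
    rw [← hk] at hk'
    classical
    obtain ⟨s1, hs1⟩ : ∃ s1 : ℕ → S, ∀ m, s1 m = if degNu dS (s0.1 m) = 1 then s0.1 m else 1 :=
      ⟨_, fun m => rfl⟩
    have hs1' : ∀ m, degNu dS (s1 m) = 1 := by
      intro m
      rw [hs1]
      split_ifs with h2
      · exact h2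
      · exact sq_one hv
    have hs1B : s1 ∈ sqB hv := ⟨1, Eventually.of_forall fun m => (hs1' m).le⟩
    have hs01 : Ideal.Quotient.mk (sqI hv) s0 = Ideal.Quotient.mk (sqI hv) ⟨s1, hs1B⟩ := by
      rw [Ideal.Quotient.mk_eq_mk_iff_sub_mem, sq_memI]
      refine Tendsto.congr' ?_ tendsto_const_nhds
      filter_upwards [hk'] with m h2
      show (0 : ℝ) = degNu dS (s0.1 m - s1 m)
      rw [hs1, if_pos h2, sub_self, degNu_zero]
    choose u e hue hu he using fun m : ℕ => sq_ore hv hc2 (hs1' m) (r.1 m) m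
    obtain ⟨C, hC⟩ := r.2
    have huB : u ∈ sqB hv := ⟨C, by
      filter_upwards [hC] with m h2
      exact (hu m).trans h2⟩
    have hvB : (fun m => s1 m ^ m) ∈ sqB hv := ⟨1, Eventually.of_forall fun m => by
      have h2 : ∀ n, degNu dS (s1 m ^ n) = 1 := by
        intro n
        induction n with
        | zero => rw [pow_zero, sq_one hv]
        | succ n ih => rw [pow_succ, hv.mul, ih, hs1', one_mul]
      exact (h2 m).le⟩
    have hv1 : sqNu hv (Ideal.Quotient.mk (sqI hv) ⟨fun m => s1 m ^ m, hvB⟩) = 1 := by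
      apply sq_eq
      have h2 : ∀ m n, degNu dS (s1 m ^ n) = 1 := by
        intro m n
        induction n with
        | zero => rw [pow_zero, sq_one hv]
        | succ n ih => rw [pow_succ, hv.mul, ih, hs1', one_mul]
      have h3 : (fun m => degNu dS ((⟨fun m => s1 m ^ m, hvB⟩ : sqB hv).1 m)) = fun _ => 1 :=
        funext fun m => h2 m m
      rw [h3]
      exact tendsto_const_nhds
    refine ⟨Ideal.Quotient.mk (sqI hv) ⟨u, huB⟩,
      Ideal.Quotient.mk (sqI hv) ⟨fun m => s1 m ^ m, hvB⟩, ?_, ?_⟩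
    · intro h2
      rw [h2, (sq_isVal hv).zero] at hv1
      exact zero_ne_one hv1
    · rw [hs01, ← map_mul, ← map_mul, Ideal.Quotient.mk_eq_mk_iff_sub_mem, sq_memI]
      have h4 : Tendsto (fun m : ℕ => (1 / 2 : ℝ) ^ m * C) (hyperfilter ℕ : Filter ℕ) (𝓝 0) := by
        have h5 := (tendsto_pow_atTop_nhds_zero_of_lt_one (r := (1 / 2 : ℝ)) (by norm_num)
          (by norm_num)).mul_const C
        rw [zero_mul] at h5
        exact h5.mono_left Nat.hyperfilter_le_atTop
      refine squeeze_zero' (Eventually.of_forall fun m => hv.nonneg _) ?_ h4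
      filter_upwards [hC] with m h5
      show degNu dS (s1 m ^ m * r.1 m - u m * s1 m) ≤ (1 / 2) ^ m * C
      rw [hue m, add_sub_cancel_left]
      exact (he m).trans (mul_le_mul_of_nonneg_left h5 (by positivity))
  have htt' : t' * t = 1 := by rw [← ht, htt]
  refine ⟨sqB hv ⧸ sqI hv, inferInstance, (Ideal.Quotient.mk (sqI hv)).comp (sqC hv), sqNu hv,
    sq_isVal hv, ?_, ?_, ?_⟩
  · intro x
    exact sq_eq hv (sqC hv x) (r := degNu dS x) tendsto_const_nhds
  · intro a b ha hb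
    have h1 := (sq_isVal hv).pos ha
    have h2 := (sq_isVal hv).pos hb
    have h3 : sqNu hv (a * b - b * a) ≤ sqNu hv a * sqNu hv b / 2 := by
      obtain ⟨x, rfl⟩ := Ideal.Quotient.mk_surjective a
      obtain ⟨y, rfl⟩ := Ideal.Quotient.mk_surjective b
      rw [← map_mul, ← map_mul, ← map_sub]
      exact le_of_tendsto_of_tendsto' (sq_tendsto hv (x * y - y * x))
        (((sq_tendsto hv x).mul (sq_tendsto hv y)).div_const 2) fun m => hc2 _ _
    have h4 := mul_pos h1 h2
    linarith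
  · intro x y hy
    obtain ⟨k, hk⟩ := (sq_isVal hv).pow y hy
    obtain ⟨tu, htu⟩ : ∃ tu : Sˣ, (tu : S) = t := ⟨⟨t, t', htt, htt'⟩, rfl⟩
    have h5 : ∀ k : ℤ, degNu dS ((tu ^ k : Sˣ) : S) = 2 ^ k := by
      have ht2 : degNu dS t = 2 := by
        have h0 : t ≠ 0 := by
          intro h0
          have h6 := sq_one hv
          rw [← htt, h0, zero_mul, degNu_zero] at h6
          exact zero_ne_one h6
        rw [degNu_ne dS h0, ht1, zpow_one]
      have h7 : ∀ n : ℕ, degNu dS ((tu ^ n : Sˣ) : S) = 2 ^ n := by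
        intro n
        induction n with
        | zero => rw [pow_zero, Units.val_one, sq_one hv, pow_zero]
        | succ n ih => rw [pow_succ, Units.val_mul, hv.mul, ih, htu, ht2, pow_succ]
      intro k
      rcases Int.eq_nat_or_neg k with ⟨n, rfl | rfl⟩
      · rw [zpow_natCast, zpow_natCast, h7]
      · have h8 : degNu dS ((tu ^ n : Sˣ) : S) * degNu dS ((tu ^ (-(n : ℤ)) : Sˣ) : S) = 1 := by
          rw [← hv.mul, ← Units.val_mul, zpow_neg, zpow_natCast, mul_inv_cancel, Units.val_one,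
            sq_one hv]
        rw [h7] at h8
        rw [eq_inv_of_mul_eq_one_right h8, zpow_neg, zpow_natCast]
    obtain ⟨z, hz⟩ : ∃ z, z = Ideal.Quotient.mk (sqI hv) (sqC hv ((tu ^ (-k) : Sˣ) : S)) :=
      ⟨_, rfl⟩
    have hz1 : sqNu hv z = 2 ^ (-k) := by
      rw [hz, sq_eq hv (sqC hv _) (r := degNu dS ((tu ^ (-k) : Sˣ) : S)) tendsto_const_nhds, h5]
    obtain ⟨u, v, hv0, hvu⟩ := hfst (z * y) x (by
      rw [(sq_isVal hv).mul, hz1, hk, ← zpow_add₀ (by norm_num), neg_add_cancel, zpow_zero])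
    exact ⟨u * z, v, hv0, by rw [hvu, mul_assoc]⟩

end Pool.Agent.H36.GZ
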