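import Pool.Agent.H36.GZ.Gauss
import Pool.Agent.H36.GZ.Seq
import Pool.Agent.H36.OX.Frac
import Pool.Agent.H36.OX.AlmA
import Pool.Agent.H36.OX.Val

/-!
# Project GZ, module Cohn: embedding of almost commutative domains in valued division rings
-/

set_option autoImplicit false

namespace Pool.Agent.H36.GZ

open Pool.Agent.H66.NCL Pool.Agent.H36.OX Pool.Agent.H36.GX

universe u

private theorem cohn_domain {B : Type u} [Ring B] {nu : B → ℝ} (h : IsVal nu) : IsDomain B := by
  have hne : ∀ {x : B}, x ≠ 0 → nu x ≠ 0 := fun {x} hx => (h.pos hx).ne'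
  obtain ⟨t, ht⟩ := h.gen
  have ht0 : t ≠ 0 := by
    rintro rfl
    rw [h.zero] at ht
    rcases ht with ht | ht
    · norm_num at ht
    · norm_num at ht
  have : Nontrivial B := ⟨t, 0, ht0⟩
  have : NoZeroDivisors B := ⟨fun {x y} hxy => by
    by_contra hcon
    push Not at hcon
    have h1 := h.mul x y
    rw [hxy, h.zero] at h1
    exact mul_ne_zero (hne hcon.1) (hne hcon.2) h1.symm⟩
  exact NoZeroDivisors.to_isDomain B

theorem exists_cohn {A : Type u} [Ring A] {d : A → ℤ} (h : IsDeg d)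
    (hc : ∀ x y, x * y ≠ y * x → d (x * y - y * x) < d x + d y) :
    ∃ (D : Type u) (_ : DivisionRing D) (j : A →+* D) (nv : D → ℝ), Function.Injective j ∧
      IsDisc nv ∧ (∀ a, nv (j a) = degNu d a) ∧
      ∀ x y : D, x ≠ 0 → y ≠ 0 → nv (x * y - y * x) < nv x * nv y := by
  obtain ⟨S, _, i, dS, t, t', hdS, hi, htt, ht, ht1, hcS⟩ := exists_laur h hc
  obtain ⟨B, _, c, nu, hnu, hcx, hcB, hO⟩ := exists_seq hdS t t' htt ht ht1 hcS
  have hdom : IsDomain B := cohn_domain hnu
  have hs : StrongRankCondition B := src_of_ore hO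
  obtain ⟨D, _, j, hj, hfrac⟩ := exists_frac B
  obtain ⟨nv, hnv, hnvj⟩ := exists_nv j hj hfrac nu hnu
  have hval : ∀ a : A, nv ((j.comp (c.comp i)) a) = degNu d a := by
    intro a
    show nv (j (c (i a))) = degNu d a
    rw [hnvj, hcx]
    by_cases ha : a = 0
    · rw [ha, map_zero, degNu_zero, degNu_zero]
    · rw [degNu_ne d ha, degNu_ne dS (hi a ha).1, (hi a ha).2]
  refine ⟨D, inferInstance, j.comp (c.comp i), nv, ?_, hnv, hval, ?_⟩
  · rw [injective_iff_map_eq_zero]
    intro a ha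
    by_contra hne
    have h1 := hval a
    rw [ha, (hnv.toIsUltra.eq_zero 0).mpr rfl, degNu_ne d hne] at h1
    exact (zpow_ne_zero (d a) (two_ne_zero : (2 : ℝ) ≠ 0)) h1.symm
  · refine comm_frac j hj hfrac nv hnv.toIsUltra ?_
    intro a b ha hb
    rw [hnvj, hnvj, hnvj]
    exact hcB a b ha hb

end Pool.Agent.H36.GZ
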