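import Pool.Agent.H36.OX.Defs

/-!
# Project GZ: almost commutative coefficient rings. Definition
-/

set_option autoImplicit false

namespace Pool.Agent.H36.GZ

open Pool.Agent.H36.OX

universe u

/-- `A` is an almost commutative domain: there is a degree function `d ≥ 0` such that
`d (x y - y x) < d x + d y`, for example the degree of the enveloping algebra of a Lie algebra. -/
def AlmostComm (A : Type u) [Ring A] : Prop :=
  ∃ d : A → ℤ, IsDeg d ∧ (∀ x, x ≠ 0 → 0 ≤ d x) ∧
    ∀ x y, x * y ≠ y * x → d (x * y - y * x) < d x + d y

end Pool.Agent.H36.GZ
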