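import Pool.Agent.H36.GZ.Base
import Pool.Agent.H36.OX.Main

/-!
# Project GZ: group rings of poly-torsion-free-abelian type groups over division rings are domains
with the strong rank condition
-/

set_option autoImplicit false

namespace Pool.Agent.H36.GZ

open Pool.Agent.H66.NCL Pool.Agent.H36.OX Pool.Agent.H36.GX

universe u

private theorem src_equiv {R S : Type u} [Ring R] [Ring S] (e : R ≃+* S)
    (h : StrongRankCondition R) : StrongRankCondition S := by
  classical
  rw [strongRankCondition_iff_succ] at h ⊢
  intro n f hf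
  let g : (Fin (n + 1) → R) →ₗ[R] (Fin n → R) :=
    { toFun := fun v k => e.symm (f (fun i => e (v i)) k)
      map_add' := fun v w => by
        funext k
        have h1 : (fun i => e ((v + w) i)) = (fun i => e (v i)) + fun i => e (w i) := by
          funext i
          simp
        rw [h1, map_add, Pi.add_apply, map_add]
        rfl
      map_smul' := fun a v => by
        funext k
        have h1 : (fun i => e ((a • v) i)) = e a • fun i => e (v i) := by
          funext i
          simp
        rw [h1, map_smul, Pi.smul_apply, smul_eq_mul, map_mul, e.symm_apply_apply]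
        rfl }
  apply h n g
  intro v w hvw
  have h1 : f (fun i => e (v i)) = f (fun i => e (w i)) := by
    funext k
    exact e.symm.injective (congrFun hvw k)
  funext i
  exact e.injective (congrFun (hf h1) i)

private theorem dom_equiv {R S : Type u} [Ring R] [Ring S] (e : R ≃+* S)
    (h : IsDomain R) : IsDomain S := e.symm.injective.isDomain e.symm.toRingHom

private theorem un_common {R : Type u} [Ring R] {J : Type u} [Nonempty J] {A : J → Subring R}
    (hdir : Directed (· ≤ ·) A) (htop : ∀ x, ∃ j, x ∈ A j) (F : Finset R) :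
    ∃ j, ∀ x ∈ F, x ∈ A j := by
  classical
  induction F using Finset.induction_on with
  | empty => exact ⟨Classical.arbitrary J, fun x hx => absurd hx (Finset.notMem_empty x)⟩
  | insert a F ha ih =>
    obtain ⟨j, hj⟩ := ih
    obtain ⟨k, hk⟩ := htop a
    obtain ⟨l, hjl, hkl⟩ := hdir j k
    refine ⟨l, fun x hx => ?_⟩
    rcases Finset.mem_insert.1 hx with rfl | hx
    · exact hkl hk
    · exact hjl (hj x hx)

private theorem un_domain {R : Type u} [Ring R] {J : Type u} [Nonempty J] {A : J → Subring R}
    (hdir : Directed (· ≤ ·) A) (htop : ∀ x, ∃ j, x ∈ A j)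
    (h : ∀ j, IsDomain (A j)) : IsDomain R := by
  classical
  have hnt : Nontrivial R := by
    obtain ⟨j⟩ := ‹Nonempty J›
    have := h j
    obtain ⟨x, y, hxy⟩ := exists_pair_ne (A j)
    exact ⟨x, y, fun hh => hxy (Subtype.ext hh)⟩
  have hnz : NoZeroDivisors R := by
    constructor
    intro a b hab
    obtain ⟨j, hj⟩ := un_common hdir htop {a, b}
    have ha : a ∈ A j := hj a (by simp)
    have hb : b ∈ A j := hj b (by simp)
    have := h j
    have h1 : (⟨a, ha⟩ : A j) * ⟨b, hb⟩ = 0 := Subtype.ext hab
    rcases mul_eq_zero.1 h1 with h2 | h2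
    · exact Or.inl (congrArg Subtype.val h2)
    · exact Or.inr (congrArg Subtype.val h2)
  exact NoZeroDivisors.to_isDomain R

private theorem un_src {R : Type u} [Ring R] {J : Type u} [Nonempty J] {A : J → Subring R}
    (hdir : Directed (· ≤ ·) A) (htop : ∀ x, ∃ j, x ∈ A j)
    (h : ∀ j, StrongRankCondition (A j)) : StrongRankCondition R := by
  classical
  rw [strongRankCondition_iff_succ]
  intro n f hf
  obtain ⟨j, hj⟩ := un_common hdir htop
    ((Finset.univ : Finset (Fin (n + 1) × Fin n)).image fun p => f (Pi.single p.1 1) p.2)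
  have hj' : ∀ i k, f (Pi.single i 1) k ∈ A j := fun i k =>
    hj _ (Finset.mem_image.2 ⟨(i, k), Finset.mem_univ _, rfl⟩)
  have := h j
  have h1 := (strongRankCondition_iff_succ (A j)).1 this n
    (Matrix.vecMulLinear (Matrix.of fun i k => (⟨f (Pi.single i 1) k, hj' i k⟩ : A j)))
  apply h1
  intro v w hvw
  have h2 : ∀ v : Fin (n + 1) → A j, ∀ k, f (fun i => (v i : R)) k =
      ((Matrix.vecMulLinear (Matrix.of fun i k => (⟨f (Pi.single i 1) k, hj' i k⟩ : A j)) v k :
        A j) : R) := by
    intro v k
    have h3 : (fun i => (v i : R)) = ∑ i, (v i : R) • (Pi.single i (1 : R) : Fin (n + 1) → R) := by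
      funext i
      rw [Finset.sum_apply]
      simp [Pi.single_apply]
    rw [h3, map_sum, Finset.sum_apply]
    simp [Matrix.vecMul, dotProduct]
  have h4 : f (fun i => (v i : R)) = f (fun i => (w i : R)) := by
    funext k
    rw [h2, h2, hvw]
  have h5 := hf h4
  funext i
  exact Subtype.ext (congrFun h5 i)

/-- the basis property of the group ring of a semidirect product by `ℤ` -/
private theorem dom_laurent {N₀ N : Type u} [Group N₀] [Group N] (A : Type u) [Ring A]
    (i : N₀ →* N) (z : N) (hσ : ∃ σ : N₀ ≃* N₀, ∀ x, z * i x = i (σ x) * z)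
    (hz : Function.Bijective fun p : N₀ × ℤ => i p.1 * z ^ p.2) :
    IsLaurent (MonoidAlgebra.mapDomainRingHom A i)
      (Units.map (MonoidAlgebra.of A N) (toUnits z)) := by
  have hu : ∀ k : ℤ, (((Units.map (MonoidAlgebra.of A N) (toUnits z)) ^ k :
      (MonoidAlgebra A N)ˣ) : MonoidAlgebra A N) = MonoidAlgebra.single (z ^ k) 1 := by
    intro k
    rw [← map_zpow, ← map_zpow]
    rfl
  refine ⟨?_, ?_⟩
  · obtain ⟨σ, hσ⟩ := hσ
    refine ⟨MonoidAlgebra.mapDomainRingEquiv A σ, fun a => ?_⟩
    have h0 := hu 1
    rw [zpow_one, zpow_one] at h0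
    rw [h0]
    induction a using MonoidAlgebra.induction_linear with
    | zero => simp
    | add x y hx hy => rw [map_add, map_add, map_add, mul_add, add_mul, hx, hy]
    | single b a =>
      simp only [MonoidAlgebra.mapDomainRingHom_apply, MonoidAlgebra.mapDomain_single,
        MonoidAlgebra.mapDomainRingEquiv_single, MonoidAlgebra.single_mul_single, one_mul,
        mul_one]
      rw [hσ]
  · have h1 := bij_grp A i z hz
    simp only [hu]
    exact h1

theorem domain_solv (E : Type u) [DivisionRing E] {N : Type u} [Group N] (hN : TFSolv N) :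
    IsDomain (MonoidAlgebra E N) ∧ StrongRankCondition (MonoidAlgebra E N) := by
  induction hN with
  | triv N h1 =>
    have : Subsingleton N := ⟨fun x y => by rw [h1 x, h1 y]⟩
    let e : E ≃+* MonoidAlgebra E N := (MonoidAlgebra.uniqueRingEquiv N).symm
    exact ⟨dom_equiv e inferInstance, src_equiv e inferInstance⟩
  | step N₀ N i z h hz hN ih =>
    obtain ⟨hd, hs⟩ := ih
    obtain ⟨d₁, d₂, h₁, h₂, h₃⟩ := (dom_laurent E i z h hz).deg
    obtain ⟨h4, h5, -⟩ := deg_main h₁ h₂ h₃ hs
    exact ⟨h4, h5⟩
  | union N J K hdir htop hN ih =>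
    have hdir' : Directed (· ≤ ·)
        (fun j => (MonoidAlgebra.mapDomainRingHom E (K j).subtype).range) := by
      intro j k
      obtain ⟨l, hj, hk⟩ := hdir j k
      refine ⟨l, fun x hx => ?_, fun x hx => ?_⟩
      · rw [mem_range_mapDomain] at hx ⊢
        exact fun b hb => hj (hx b hb)
      · rw [mem_range_mapDomain] at hx ⊢
        exact fun b hb => hk (hx b hb)
    have htop' : ∀ x, ∃ j, x ∈ (MonoidAlgebra.mapDomainRingHom E (K j).subtype).range := by
      intro x
      classical
      choose j hj using htop
      obtain ⟨l, hl⟩ := hdir.finset_le (x.coeff.support.image fun n => j n)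
      refine ⟨l, (mem_range_mapDomain E _ x).2 fun n hn => ?_⟩
      exact hl _ (Finset.mem_image_of_mem _ (Finsupp.mem_support_iff.2 hn)) (hj _)
    have he : ∀ j, MonoidAlgebra E (K j) ≃+*
        (MonoidAlgebra.mapDomainRingHom E (K j).subtype).range := fun j =>
      RingEquiv.ofBijective (MonoidAlgebra.mapDomainRingHom E (K j).subtype).rangeRestrict
        ⟨fun _ _ hab => MonoidAlgebra.mapDomain_injective Subtype.val_injective
            (congrArg Subtype.val hab),
          (MonoidAlgebra.mapDomainRingHom E (K j).subtype).rangeRestrict_surjective⟩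
    exact ⟨un_domain hdir' htop' fun j => dom_equiv (he j) (ih j).1,
      un_src hdir' htop' fun j => src_equiv (he j) (ih j).2⟩

end Pool.Agent.H36.GZ
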