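import Pool.Agent.H36.GZ.Base
import Pool.Agent.H36.OX.Frac
import Pool.Agent.H36.OX.Main

/-!
# Project GZ, module FracU: the division ring of fractions with its universal property, and the formal
properties of `PMD`
-/

set_option autoImplicit false

namespace Pool.Agent.H36.GZ

open Pool.Agent.H66.NCL Pool.Agent.H36.OX Pool.Agent.H36.GX
open scoped nonZeroDivisors

universe u

theorem exists_fracU (R : Type u) [Ring R] [IsDomain R] [StrongRankCondition R] :
    ∃ (D : Type u) (_ : DivisionRing D) (j : R →+* D), IsFrac j ∧
      ∀ (D' : Type u) [DivisionRing D'] (φ : R →+* D'), Function.Injective φ →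
        ∃ e : D →+* D', ∀ x, e (j x) = φ x := by
  obtain ⟨hS⟩ := nonempty_oreSet_of_strongRankCondition (R := R)
  let _ : OreLocalization.OreSet R⁰ := hS
  refine ⟨OreLocalization R⁰ R, inferInstance, OreLocalization.numeratorRingHom, ⟨?_, ?_⟩, ?_⟩
  · exact OreLocalization.numeratorHom_inj inf_le_left
  · intro d
    induction d using OreLocalization.ind with
    | _ r s =>
      refine ⟨s.1, nonZeroDivisors.coe_ne_zero s, r, ?_⟩
      exact OreLocalization.mul_cancel
  · intro D' _ φ hφ
    have h0 : ∀ s : R⁰, φ s.1 ≠ 0 := fun s h =>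
      nonZeroDivisors.coe_ne_zero s (hφ (by rw [h, map_zero]))
    let fS : R⁰ →* D'ˣ :=
      { toFun := fun s => Units.mk0 (φ s.1) (h0 s)
        map_one' := by
          ext
          exact map_one φ
        map_mul' := fun s t => by
          ext
          exact map_mul φ s.1 t.1 }
    refine ⟨OreLocalization.universalHom φ fS (fun s => rfl), fun x => ?_⟩
    exact OreLocalization.universalHom_commutes φ fS _

/-- larger division rings: fewer automorphisms respect the relations -/
theorem PMD.comp {R D D' : Type u} [Ring R] [DivisionRing D] [DivisionRing D'] {j : R →+* D}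
    (h : PMD j) (φ : D →+* D') : PMD (φ.comp j) := by
  intro N W _ _ f hf H _ τ hτ hr
  refine h N W f hf H τ hτ fun g => ?_
  intro m w c hc n
  have h1 := hr g m w (fun k => φ (c k)) (fun n => by
    have h2 := congrArg φ (hc n)
    rw [map_sum, map_zero] at h2
    rw [← h2]
    exact Finset.sum_congr rfl fun k _ => (map_mul φ _ _).symm) n
  apply φ.injective
  rw [map_sum, map_zero, ← h1]
  exact Finset.sum_congr rfl fun k _ => map_mul φ _ _

theorem PMD.of_equiv {R R' D : Type u} [Ring R] [Ring R'] [DivisionRing D] {j : R →+* D}
    (h : PMD j) (e : R' ≃+* R) : PMD (j.comp (e : R' →+* R)) := by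
  intro N W _ _ f hf H _ τ hτ hr
  letI : Module R W := Module.compHom W (e.symm : R →+* R')
  have hs : ∀ (r : R) (w : W), r • w = e.symm r • w := fun r w => rfl
  let f' : W →ₗ[R] (Fin N → R) :=
    { toFun := fun w n => e (f w n)
      map_add' := fun a b => by
        funext n
        show e (f (a + b) n) = e (f a n) + e (f b n)
        rw [map_add, Pi.add_apply, map_add]
      map_smul' := fun r w => by
        funext n
        show e (f (r • w) n) = r * e (f w n)
        rw [hs, map_smul, Pi.smul_apply, smul_eq_mul, map_mul, RingEquiv.apply_symm_apply] }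
  let τ' : H →* (W ≃ₗ[R] W) :=
    { toFun := fun g =>
        { (τ g).toAddEquiv with
          map_smul' := fun r w => by
            show τ g (r • w) = r • τ g w
            rw [hs, hs, map_smul] }
      map_one' := by
        ext w
        show τ 1 w = w
        rw [map_one]
        rfl
      map_mul' := fun a b => by
        ext w
        show τ (a * b) w = τ a (τ b w)
        rw [map_mul]
        rfl }
  refine h N W f' (fun a b hab => hf (funext fun n => e.injective (congrFun hab n))) H τ' ?_ ?_
  · intro a b hab
    apply hτ
    ext w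
    exact congrArg (fun z : W ≃ₗ[R] W => z w) hab
  · intro g m w c hc n
    exact hr g m w c hc n

theorem PMD.P {R D : Type u} [Ring R] [DivisionRing D] {j : R →+* D} (hj : Function.Injective j)
    (h : PMD j) : P.{u, u} R := by
  intro n
  let G := (Matrix (Fin n) (Fin n) R)ˣ
  let τ : G →* ((Fin n → R) ≃ₗ[R] (Fin n → R)) :=
    { toFun := fun g =>
        { toFun := fun v => Matrix.vecMul v g⁻¹.val
          map_add' := fun a b => Matrix.add_vecMul _ _ _
          map_smul' := fun x a => Matrix.smul_vecMul _ _ _
          invFun := fun v => Matrix.vecMul v g.val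
          left_inv := fun v => by
            show Matrix.vecMul (Matrix.vecMul v g⁻¹.val) g.val = v
            rw [Matrix.vecMul_vecMul, ← Units.val_mul, inv_mul_cancel, Units.val_one,
              Matrix.vecMul_one]
          right_inv := fun v => by
            show Matrix.vecMul (Matrix.vecMul v g.val) g⁻¹.val = v
            rw [Matrix.vecMul_vecMul, ← Units.val_mul, mul_inv_cancel, Units.val_one,
              Matrix.vecMul_one] }
      map_one' := by
        ext v k
        show Matrix.vecMul _ (1 : G)⁻¹.val k = _
        rw [inv_one, Units.val_one, Matrix.vecMul_one]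
        rfl
      map_mul' := fun a b => by
        refine LinearEquiv.ext fun v => ?_
        show Matrix.vecMul v (a * b)⁻¹.val = Matrix.vecMul (Matrix.vecMul v b⁻¹.val) a⁻¹.val
        rw [Matrix.vecMul_vecMul, ← Units.val_mul, mul_inv_rev] }
  refine h n (Fin n → R) LinearMap.id (fun a b hab => hab) G τ ?_ ?_
  · intro a b hab
    have h1 : a⁻¹.val = b⁻¹.val := by
      ext k l
      have h2 := congrArg (fun z : (Fin n → R) ≃ₗ[R] (Fin n → R) => z (Pi.single k 1)) hab
      have h3 : Matrix.vecMul (Pi.single k 1) a⁻¹.val = Matrix.vecMul (Pi.single k 1) b⁻¹.val := h2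
      rw [Matrix.single_one_vecMul, Matrix.single_one_vecMul] at h3
      exact congrFun h3 l
    exact inv_injective (Units.ext h1)
  · intro g m w c hc k
    show ∑ i, c i * j (Matrix.vecMul (w i) g⁻¹.val k) = 0
    have h1 : ∀ i, c i * j (Matrix.vecMul (w i) g⁻¹.val k) =
        ∑ l, c i * j (w i l) * j (g⁻¹.val l k) := by
      intro i
      have h2 : Matrix.vecMul (w i) g⁻¹.val k = ∑ l, w i l * g⁻¹.val l k := rfl
      rw [h2, map_sum, Finset.mul_sum]
      exact Finset.sum_congr rfl fun l _ => by rw [map_mul, mul_assoc]
    rw [Finset.sum_congr rfl fun i _ => h1 i, Finset.sum_comm]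
    refine Finset.sum_eq_zero fun l _ => ?_
    rw [← Finset.sum_mul]
    have h3 : ∑ i, c i * j (w i l) = 0 := hc l
    rw [h3, zero_mul]

end Pool.Agent.H36.GZ
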