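import Pool.Agent.H36.GZ.StepD
import Pool.Agent.H36.GZ.DomE
import Pool.Agent.H36.GZ.FracU
import Pool.Agent.H36.OX.Frac
import Pool.Agent.H36.OX.Val
import Pool.Agent.H36.OX.Grp

/-!
# The step for group rings: from `N₀` to `N₀ ⋊ ⟨z⟩`, without the Ore condition
-/

set_option autoImplicit false

namespace Pool.Agent.H36.GZ

open Pool.Agent.H66.NCL Pool.Agent.H36.OX Pool.Agent.H36.GX

universe u

/-- common left denominators -/
private theorem gs_denom {R D : Type u} [Ring R] [DivisionRing D] {j : R →+* D} (h : IsFrac j)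
    {r : ℕ} (c : Fin r → D) : ∃ s : R, s ≠ 0 ∧ ∀ k, ∃ a, j s * c k = j a := by
  obtain ⟨hj, hfrac⟩ := h
  induction r with
  | zero =>
    obtain ⟨s, hs, _⟩ := hfrac 0
    exact ⟨s, hs, fun k => k.elim0⟩
  | succ r ih =>
    obtain ⟨s, hs, h1⟩ := ih (fun k => c k.castSucc)
    obtain ⟨u, hu, a, ha⟩ := hfrac (j s * c (Fin.last r))
    have hjs : j s ≠ 0 := fun h => hs (hj (by rw [h, map_zero]))
    have hju : j u ≠ 0 := fun h => hu (hj (by rw [h, map_zero]))
    refine ⟨u * s, ?_, ?_⟩
    · intro h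
      have h2 : j u * j s = 0 := by rw [← map_mul, h, map_zero]
      exact mul_ne_zero hju hjs h2
    · intro k
      refine Fin.lastCases ?_ (fun k => ?_) k
      · exact ⟨a, by rw [map_mul, mul_assoc, ha]⟩
      · obtain ⟨b, hb⟩ := h1 k
        exact ⟨u * b, by rw [map_mul, mul_assoc, hb, ← map_mul]⟩

/-- the generator `z` in the group ring -/
private noncomputable def gsU {N : Type u} [Group N] (A : Type u) [Ring A] (z : N) :
    (MonoidAlgebra A N)ˣ := Units.map (MonoidAlgebra.of A N) (toUnits z)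

private theorem gsU_zpow {N : Type u} [Group N] (A : Type u) [Ring A] (z : N) (k : ℤ) :
    (((gsU A z) ^ k : (MonoidAlgebra A N)ˣ) : MonoidAlgebra A N) =
      MonoidAlgebra.single (z ^ k) 1 := by
  unfold gsU
  rw [← map_zpow, ← map_zpow]
  rfl

private theorem gs_laurent {N₀ N : Type u} [Group N₀] [Group N] (A : Type u) [Ring A]
    (i : N₀ →* N) (z : N) (hσ : ∃ σ : N₀ ≃* N₀, ∀ x, z * i x = i (σ x) * z)
    (hz : Function.Bijective fun p : N₀ × ℤ => i p.1 * z ^ p.2) :
    IsLaurent (MonoidAlgebra.mapDomainRingHom A i) (gsU A z) := by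
  refine ⟨?_, ?_⟩
  · obtain ⟨σ, hσ⟩ := hσ
    refine ⟨MonoidAlgebra.mapDomainRingEquiv A σ, fun a => ?_⟩
    have h0 := gsU_zpow A z 1
    rw [zpow_one, zpow_one] at h0
    rw [h0]
    induction a using MonoidAlgebra.induction_linear with
    | zero => simp
    | add x y hx hy => rw [map_add, map_add, map_add, mul_add, add_mul, hx, hy]
    | single b a =>
      simp only [MonoidAlgebra.mapDomainRingHom_apply, MonoidAlgebra.mapDomain_single,
        MonoidAlgebra.mapDomainRingEquiv_single, MonoidAlgebra.single_mul_single, one_mul,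
        mul_one]
      rw [hσ]
  · have h1 := bij_grp A i z hz
    simp only [gsU_zpow]
    exact h1

/-- change of coefficients commutes with change of the group -/
private theorem gs_comm {A E : Type u} [Ring A] [Ring E] (q : A →+* E)
    {N₀ N : Type u} [Group N₀] [Group N] (i : N₀ →* N) (a : MonoidAlgebra A N₀) :
    MonoidAlgebra.mapRingHom N q (MonoidAlgebra.mapDomainRingHom A i a) =
      MonoidAlgebra.mapDomainRingHom E i (MonoidAlgebra.mapRingHom N₀ q a) := by
  induction a using MonoidAlgebra.induction_linear with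
  | zero => simp
  | add x y hx hy => rw [map_add, map_add, map_add, map_add, hx, hy]
  | single b a => simp

private theorem gs_single {A E : Type u} [Ring A] [Ring E] (q : A →+* E)
    {N : Type u} [Group N] (x : N) :
    MonoidAlgebra.mapRingHom N q (MonoidAlgebra.single x 1) = MonoidAlgebra.single x 1 := by
  simp

private theorem gs_inj {A E : Type u} [Ring A] [Ring E] (q : A →+* E)
    (hq : Function.Injective q) {N : Type u} [Group N] :
    Function.Injective (MonoidAlgebra.mapRingHom N q) := by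
  intro x y hxy
  apply MonoidAlgebra.coeff_injective
  ext g
  apply hq
  have h2 := congrArg (fun z => z.coeff g) hxy
  simpa using h2

/-- the coefficients of the image -/
private theorem gs_co {A E : Type u} [Ring A] [Ring E] (q : A →+* E)
    {N₀ N : Type u} [Group N₀] [Group N] (i : N₀ →* N) (z : N)
    (hA : IsLaurent (MonoidAlgebra.mapDomainRingHom A i) (gsU A z))
    (hE : IsLaurent (MonoidAlgebra.mapDomainRingHom E i) (gsU E z)) (x : MonoidAlgebra A N)
    (k : ℤ) : Lau.co hE (MonoidAlgebra.mapRingHom N q x) k =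
      MonoidAlgebra.mapRingHom N₀ q (Lau.co hA x k) := by
  have h1 : Lau.co hE (MonoidAlgebra.mapRingHom N q x) =
      Finsupp.mapRange (MonoidAlgebra.mapRingHom N₀ q) (map_zero _) (Lau.co hA x) := by
    apply hE.basis.injective
    show ((Lau.co hE _).sum fun k a => _) = (Finsupp.mapRange _ _ _).sum fun k a => _
    rw [Lau.sum_co, Finsupp.sum_mapRange_index (fun k => by rw [map_zero, zero_mul])]
    conv_lhs => rw [← Lau.sum_co hA x]
    rw [Finsupp.sum, map_sum, Finsupp.sum]
    refine Finset.sum_congr rfl fun k _ => ?_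
    rw [map_mul, gs_comm, gsU_zpow, gsU_zpow, gs_single]
  rw [h1, Finsupp.mapRange_apply]

theorem GrpPMD.step {A E : Type u} [Ring A] [DivisionRing E] (q : A →+* E)
    (hq : Function.Injective q) {N₀ N : Type u} [Group N₀] [Group N] (i : N₀ →* N) (z : N)
    (h : ∃ σ : N₀ ≃* N₀, ∀ x, z * i x = i (σ x) * z)
    (hz : Function.Bijective fun p : N₀ × ℤ => i p.1 * z ^ p.2) (hN : TFSolv N₀)
    (ih : GrpPMD q N₀) : GrpPMD q N := by
  intro D _ J hJ
  obtain ⟨hd, hs⟩ := domain_solv E hN
  have hA := gs_laurent A i z h hz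
  have hE := gs_laurent E i z h hz
  obtain ⟨E₀, _, J₀, hJ₀, huniv⟩ := exists_fracU (MonoidAlgebra E N₀)
  have hi : Function.Injective i := by
    intro a b hab
    have h1 := hz.injective (a₁ := (a, 0)) (a₂ := (b, 0)) (by
      show i a * z ^ (0 : ℤ) = i b * z ^ (0 : ℤ)
      rw [hab])
    exact congrArg Prod.fst h1
  have hiE : Function.Injective (MonoidAlgebra.mapDomainRingHom E i) :=
    MonoidAlgebra.mapDomain_injective hi
  obtain ⟨e, he⟩ := huniv D (J.comp (MonoidAlgebra.mapDomainRingHom E i)) (hJ.1.comp hiE)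
  obtain ⟨nv₁, hnv₁, hnvJ₁⟩ := exists_nv J hJ.1 hJ.2 _ (Lau.isDeg hE).isVal
  obtain ⟨nv₂, hnv₂, hnvJ₂⟩ := exists_nv J hJ.1 hJ.2 _ (Lau.isDeg (Lau.inv hE)).isVal
  have hcomm : ∀ a, e ((J₀.comp (MonoidAlgebra.mapRingHom N₀ q)) a) =
      (J.comp (MonoidAlgebra.mapRingHom N q)) (MonoidAlgebra.mapDomainRingHom A i a) := by
    intro a
    show e (J₀ _) = J _
    rw [he, gs_comm]
    rfl
  have hk : Function.Injective (J₀.comp (MonoidAlgebra.mapRingHom N₀ q)) :=
    hJ₀.1.comp (gs_inj q hq)
  have hj : Function.Injective (J.comp (MonoidAlgebra.mapRingHom N q)) :=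
    hJ.1.comp (gs_inj q hq)
  refine PMD.step (MonoidAlgebra.mapDomainRingHom A i) (J₀.comp (MonoidAlgebra.mapRingHom N₀ q))
    (J.comp (MonoidAlgebra.mapRingHom N q)) e hk hj hcomm nv₁ nv₂ hnv₁ hnv₂ ?_ ?_ ?_
    (ih E₀ J₀ hJ₀)
  · intro a
    show nv₁ (J _) ≤ 1
    rw [hnvJ₁, gs_comm]
    have h2 : degNu (Lau.deg hE) (MonoidAlgebra.mapDomainRingHom E i
        (MonoidAlgebra.mapRingHom N₀ q a)) ≤ 2 ^ 0 := by
      rw [degNu_le]
      by_cases ha : MonoidAlgebra.mapRingHom N₀ q a = 0
      · left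
        rw [ha, map_zero]
      · right
        have h3 := (Lau.top_monomial (h := hE) ha 0).deg
        rw [zpow_zero, Units.val_one, mul_one] at h3
        rw [h3]
        rfl
    rwa [pow_zero] at h2
  · intro a
    show nv₂ (J _) ≤ 1
    rw [hnvJ₂, gs_comm]
    have h2 : degNu (Lau.deg (Lau.inv hE)) (MonoidAlgebra.mapDomainRingHom E i
        (MonoidAlgebra.mapRingHom N₀ q a)) ≤ 2 ^ 0 := by
      rw [degNu_le]
      by_cases ha : MonoidAlgebra.mapRingHom N₀ q a = 0
      · left
        rw [ha, map_zero]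
      · right
        have h3 := (Lau.top_monomial (h := Lau.inv hE) ha 0).deg
        rw [zpow_zero, Units.val_one, mul_one] at h3
        rw [h3]
        rfl
    rwa [pow_zero] at h2
  · intro C
    obtain ⟨n, hn⟩ := pow_unbounded_of_one_lt C (by norm_num : (1 : ℝ) < 2)
    refine ⟨2 * n + 1, fun k => (((gsU A z) ^ ((k : ℤ) - n) : (MonoidAlgebra A N)ˣ) :
      MonoidAlgebra A N), ?_, ?_⟩
    · intro f hf
      obtain ⟨s, hs0, h1⟩ := gs_denom hJ₀ f
      choose a ha using h1
      have h2 : ∑ l, MonoidAlgebra.mapDomainRingHom E i (a l) *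
          (((gsU E z) ^ ((l : ℤ) - n) : (MonoidAlgebra E N)ˣ) : MonoidAlgebra E N) = 0 := by
        apply hJ.1
        rw [map_sum, map_zero]
        have h3 : e (J₀ s) * ∑ l, e (f l) * (J.comp (MonoidAlgebra.mapRingHom N q))
            (((gsU A z) ^ ((l : ℤ) - n) : (MonoidAlgebra A N)ˣ) : MonoidAlgebra A N) = 0 := by
          rw [hf, mul_zero]
        rw [Finset.mul_sum] at h3
        rw [← h3]
        refine Finset.sum_congr rfl fun l _ => ?_
        rw [← mul_assoc, ← map_mul e, ha, he, map_mul]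
        show J _ * J _ = J _ * J _
        rw [gsU_zpow, gsU_zpow, gs_single]
      have h3 := Lau.fin_free hE n a h2
      funext l
      have h4 := ha l
      rw [h3, Pi.zero_apply, map_zero] at h4
      rcases mul_eq_zero.1 h4 with h5 | h5
      · exact absurd (hJ₀.1 (by rw [h5, map_zero])) hs0
      · exact h5
    · intro x hx1 hx2
      have hx1' : degNu (Lau.deg hE) (MonoidAlgebra.mapRingHom N q x) ≤ 2 ^ n := by
        rw [← hnvJ₁]
        exact hx1.trans hn.le
      have hx2' : degNu (Lau.deg (Lau.inv hE)) (MonoidAlgebra.mapRingHom N q x) ≤ 2 ^ n := by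
        rw [← hnvJ₂]
        exact hx2.trans hn.le
      rw [degNu_le] at hx1' hx2'
      apply Lau.exists_fin hA n x
      intro k hk
      have hk' : Lau.co hE (MonoidAlgebra.mapRingHom N q x) k ≠ 0 := by
        rw [gs_co q i z hA hE]
        exact fun h0 => hk (gs_inj q hq (by rw [h0, map_zero]))
      have hx0 : MonoidAlgebra.mapRingHom N q x ≠ 0 := by
        intro h0
        rw [h0, Lau.co_zero] at hk'
        exact hk' rfl
      have h1 := hx1'.resolve_left hx0
      have h2 := hx2'.resolve_left hx0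
      have h5 := (Lau.top_deg hE hx0).le hk'
      have h6 : -k ≤ Lau.deg (Lau.inv hE) (MonoidAlgebra.mapRingHom N q x) := by
        apply (Lau.top_deg (Lau.inv hE) hx0).le
        rw [Lau.co_inv, neg_neg]
        exact hk'
      omega

end Pool.Agent.H36.GZ
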