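import Pool.Agent.H36.GZ.Base
import Pool.Agent.H36.GZ.Alm
import Pool.Agent.H36.GZ.FracU
import Pool.Agent.H36.GZ.DomE
import Pool.Agent.H36.OX.Loc
import Pool.Agent.H36.OX.Grp

/-!
# Project GZ: directed unions of subgroups

A finitely generated group of automorphisms of a submodule of `A[N]^n` which respects the relations over the division
ring of fractions `D` of `E[N]` is described by finitely many elements of `D`; they are in the division ring of
fractions of `E[K_j]` for one `j`.
-/

set_option autoImplicit false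

namespace Pool.Agent.H36.GZ

open Pool.Agent.H66.NCL Pool.Agent.H36.OX Pool.Agent.H36.GX

universe u

/-- one of the subgroups contains finitely many given elements -/
private theorem gu_common {N : Type u} [Group N] {J : Type u} [Nonempty J]
    (K : J → Subgroup N) (hdir : Directed (· ≤ ·) K) (htop : ∀ x, ∃ j, x ∈ K j) (F : Finset N) :
    ∃ j, ∀ x ∈ F, x ∈ K j := by
  classical
  choose j hj using htop
  obtain ⟨l, hl⟩ := hdir.finset_le (F.image j)
  exact ⟨l, fun x hx => hl _ (Finset.mem_image_of_mem _ hx) (hj _)⟩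

private theorem gu_map_inj {A E : Type u} [Ring A] [Ring E] (q : A →+* E)
    (hq : Function.Injective q) (N : Type u) [Group N] :
    Function.Injective (MonoidAlgebra.mapRingHom N q) := by
  intro x y hxy
  apply MonoidAlgebra.coeff_injective
  ext g
  apply hq
  have h2 := congrArg (fun z => z.coeff g) hxy
  simpa using h2

/-- saturation: an element of `A[N]`, which is in the division ring of fractions of `E[K]`, is in `A[K]` -/
private theorem gu_sat {A E : Type u} [Ring A] [DivisionRing E] (q : A →+* E)
    (hq : Function.Injective q) {N : Type u} [Group N] (K : Subgroup N)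
    (hK : NoZeroDivisors (MonoidAlgebra E K)) {D D' : Type u} [DivisionRing D] [DivisionRing D']
    (F : MonoidAlgebra E N →+* D) (hF : Function.Injective F) (j : MonoidAlgebra E K →+* D')
    (hj : IsFrac j) (e : D' →+* D)
    (he : ∀ x, e (j x) = F (MonoidAlgebra.mapDomainRingHom E K.subtype x)) (x : MonoidAlgebra A N)
    (hx : F (MonoidAlgebra.mapRingHom N q x) ∈ e.range) :
    x ∈ (MonoidAlgebra.mapDomainRingHom A K.subtype).range := by
  obtain ⟨d, hd⟩ := hx
  obtain ⟨s, hs, a, ha⟩ := hj.2 d
  have h1 : MonoidAlgebra.mapDomainRingHom E K.subtype s * MonoidAlgebra.mapRingHom N q x =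
      MonoidAlgebra.mapDomainRingHom E K.subtype a := by
    apply hF
    rw [map_mul, ← he, ← hd, ← he, ← map_mul, ha]
  have h2 : MonoidAlgebra.mapRingHom N q x ∈ (MonoidAlgebra.mapDomainRingHom E K.subtype).range := by
    refine sat_mapDomain E K hK (MonoidAlgebra.mapDomainRingHom E K.subtype s) _ ⟨s, rfl⟩ ?_
      ⟨a, h1.symm⟩
    intro h0
    apply hs
    refine MonoidAlgebra.mapDomain_injective (f := K.subtype) Subtype.val_injective ?_
    exact h0.trans (map_zero (MonoidAlgebra.mapDomainRingHom E K.subtype)).symm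
  rw [mem_range_mapDomain] at h2 ⊢
  intro n hn
  apply h2
  rw [MonoidAlgebra.coeff_mapRingHom]
  intro h0
  exact hn (hq (by rw [h0, map_zero]))

theorem GrpPMD.union {A E : Type u} [Ring A] [DivisionRing E] (q : A →+* E)
    (hq : Function.Injective q) {N : Type u} [Group N] {J : Type u} [Nonempty J]
    (K : J → Subgroup N) (hdir : Directed (· ≤ ·) K) (htop : ∀ x, ∃ j, x ∈ K j)
    (hN : ∀ j, TFSolv (K j)) (ih : ∀ j, GrpPMD q (K j)) : GrpPMD q N := by
  classical
  intro D _ F hF N' W _ _ f hf H _ τ hτ hresp
  obtain ⟨hFi, hFf⟩ := hF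
  have hqN := gu_map_inj q hq N
  have hjR : Function.Injective (F.comp (MonoidAlgebra.mapRingHom N q)) := hFi.comp hqN
  obtain ⟨r, ρ, κ, v, β, hκs, hκτ, hκv, hβ⟩ := exists_repD _ hjR f hf τ hresp
  choose s hs a ha using hFf
  apply CE.of_finset
  intro S
  obtain ⟨T, hT⟩ : ∃ T : Finset H, T = S ∪ S.image (fun x => x⁻¹) := ⟨_, rfl⟩
  obtain ⟨Q, hQ⟩ : ∃ Q : Finset D,
      Q = ((T ×ˢ (Finset.univ : Finset (Fin r × Fin r))).image
        fun p => (ρ p.1⁻¹).val p.2.1 p.2.2) ∪
        (Finset.univ : Finset (Fin r × Fin N')).image fun p => β p.1 p.2 := ⟨_, rfl⟩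
  obtain ⟨j, hj⟩ := gu_common K hdir htop
    (Q.biUnion fun d => (s d).coeff.support ∪ (a d).coeff.support)
  obtain ⟨hdom, hsrc⟩ := domain_solv E (hN j)
  obtain ⟨Dj, _, jj, hjj, hex⟩ := exists_fracU (MonoidAlgebra E (K j))
  have hKi : Function.Injective (MonoidAlgebra.mapDomainRingHom E (K j).subtype) :=
    MonoidAlgebra.mapDomain_injective (f := (K j).subtype) Subtype.val_injective
  have hKiA : Function.Injective (MonoidAlgebra.mapDomainRingHom A (K j).subtype) :=
    MonoidAlgebra.mapDomain_injective (f := (K j).subtype) Subtype.val_injective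
  obtain ⟨e, he⟩ := hex D (F.comp (MonoidAlgebra.mapDomainRingHom E (K j).subtype))
    (hFi.comp hKi)
  have hei : Function.Injective e := e.injective
  have hQr : ∀ d ∈ Q, d ∈ e.range := by
    intro d hd
    have h1 : s d ∈ (MonoidAlgebra.mapDomainRingHom E (K j).subtype).range := by
      rw [mem_range_mapDomain]
      intro n hn
      exact hj n (Finset.mem_biUnion.2 ⟨d, hd, Finset.mem_union_left _
        (Finsupp.mem_support_iff.2 hn)⟩)
    have h2 : a d ∈ (MonoidAlgebra.mapDomainRingHom E (K j).subtype).range := by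
      rw [mem_range_mapDomain]
      intro n hn
      exact hj n (Finset.mem_biUnion.2 ⟨d, hd, Finset.mem_union_right _
        (Finsupp.mem_support_iff.2 hn)⟩)
    obtain ⟨s', hs'⟩ := h1
    obtain ⟨a', ha'⟩ := h2
    refine ⟨(jj s')⁻¹ * jj a', ?_⟩
    have h3 := ha d
    rw [← hs', ← ha'] at h3
    have h4 : F (MonoidAlgebra.mapDomainRingHom E (K j).subtype s') ≠ 0 := by
      intro h0
      rw [hs'] at h0
      exact hs d (hFi (by rw [h0, map_zero]))
    rw [map_mul, map_inv₀, he, he]
    show (F (MonoidAlgebra.mapDomainRingHom E (K j).subtype s'))⁻¹ *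
      F (MonoidAlgebra.mapDomainRingHom E (K j).subtype a') = d
    rw [← h3, inv_mul_cancel_left₀ h4]
  have hρr : ∀ h ∈ T, ∀ k l, (ρ h⁻¹).val k l ∈ e.range := by
    intro h hh k l
    apply hQr
    rw [hQ]
    exact Finset.mem_union_left _ (Finset.mem_image.2
      ⟨(h, (k, l)), Finset.mem_product.2 ⟨hh, Finset.mem_univ _⟩, rfl⟩)
  have hβr : ∀ k n, β k n ∈ e.range := by
    intro k n
    apply hQr
    rw [hQ]
    exact Finset.mem_union_right _ (Finset.mem_image.2 ⟨(k, n), Finset.mem_univ _, rfl⟩)
  -- the `A[K_j]`-module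
  let iA : MonoidAlgebra A (K j) →+* MonoidAlgebra A N :=
    MonoidAlgebra.mapDomainRingHom A (K j).subtype
  let modW : Module (MonoidAlgebra A (K j)) W := Module.compHom W iA
  have hmodW : ∀ (x : MonoidAlgebra A (K j)) (w : W), x • w = iA x • w := fun _ _ => rfl
  have hcomm : ∀ x : MonoidAlgebra A (K j),
      F (MonoidAlgebra.mapRingHom N q (iA x)) = e (jj (MonoidAlgebra.mapRingHom (K j) q x)) := by
    intro x
    rw [he]
    show F (MonoidAlgebra.mapRingHom N q (MonoidAlgebra.mapDomainRingHom A (K j).subtype x)) =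
      F (MonoidAlgebra.mapDomainRingHom E (K j).subtype (MonoidAlgebra.mapRingHom (K j) q x))
    have h1 := congrArg (fun g => g x)
      (MonoidAlgebra.mapRingHom_comp_mapDomainRingHom q (K j).subtype)
    exact congrArg F h1
  let Rat : Submodule (MonoidAlgebra A (K j)) W :=
    { carrier := {w | ∀ k, κ w k ∈ e.range}
      zero_mem' := by
        intro k
        rw [map_zero]
        exact e.range.zero_mem
      add_mem' := by
        intro w w' hw hw' k
        rw [map_add]
        exact e.range.add_mem (hw k) (hw' k)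
      smul_mem' := by
        intro x w hw k
        rw [hmodW, hκs]
        show F (MonoidAlgebra.mapRingHom N q (iA x)) * κ w k ∈ e.range
        rw [hcomm]
        exact e.range.mul_mem ⟨_, rfl⟩ (hw k) }
  have hmem : ∀ w, w ∈ Rat ↔ ∀ k, κ w k ∈ e.range := fun w => Iff.rfl
  have hTR : ∀ h ∈ T, ∀ w ∈ Rat, τ h w ∈ Rat := by
    intro h hh w hw
    rw [hmem] at hw ⊢
    intro l
    rw [hκτ]
    show ∑ k, κ w k * (ρ h⁻¹).val k l ∈ e.range
    exact e.range.sum_mem fun k _ => e.range.mul_mem (hw k) (hρr h hh k l)
  have hvR : ∀ k, v k ∈ Rat := by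
    intro k
    rw [hmem]
    intro l
    rw [hκv]
    by_cases hkl : l = k
    · rw [hkl, Pi.single_eq_same]
      exact e.range.one_mem
    · rw [Pi.single_eq_of_ne hkl]
      exact e.range.zero_mem
  obtain ⟨H', hH'⟩ : ∃ H' : Subgroup H, H' = Subgroup.closure (S : Set H) := ⟨_, rfl⟩
  have hinv : ∀ h ∈ H', (∀ w ∈ Rat, τ h w ∈ Rat) ∧ ∀ w ∈ Rat, τ h⁻¹ w ∈ Rat := by
    intro h hh
    rw [hH'] at hh
    induction hh using Subgroup.closure_induction with
    | mem x hx =>
      have hx' : x ∈ S := hx
      refine ⟨hTR x ?_, hTR x⁻¹ ?_⟩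
      · rw [hT]
        exact Finset.mem_union_left _ hx'
      · rw [hT]
        exact Finset.mem_union_right _ (Finset.mem_image.2 ⟨x, hx', rfl⟩)
    | one => simp
    | mul x y _ _ hx hy =>
      refine ⟨fun w hw => ?_, fun w hw => ?_⟩
      · rw [map_mul]
        exact hx.1 _ (hy.1 _ hw)
      · rw [mul_inv_rev, map_mul]
        exact hy.2 _ (hx.2 _ hw)
    | inv x _ hx =>
      rw [inv_inv]
      exact ⟨hx.2, hx.1⟩
  refine ⟨H', ?_, ?_⟩
  · rw [hH']
    exact Subgroup.subset_closure
  let τ' : H' →* (Rat ≃ₗ[MonoidAlgebra A (K j)] Rat) :=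
    { toFun := fun h =>
        { toFun := fun w => ⟨τ h w, (hinv h h.2).1 w w.2⟩
          map_add' := fun w w' => Subtype.ext (map_add (τ h) _ _)
          map_smul' := fun x w => Subtype.ext (map_smul (τ h) (iA x) (w : W))
          invFun := fun w => ⟨τ (h : H)⁻¹ w, (hinv h h.2).2 w w.2⟩
          left_inv := fun w => by
            apply Subtype.ext
            show τ (h : H)⁻¹ (τ h w) = w
            rw [← LinearEquiv.mul_apply, ← map_mul, inv_mul_cancel, map_one]
            rfl
          right_inv := fun w => by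
            apply Subtype.ext
            show τ (h : H) (τ (h : H)⁻¹ w) = w
            rw [← LinearEquiv.mul_apply, ← map_mul, mul_inv_cancel, map_one]
            rfl }
      map_one' := by
        apply LinearEquiv.ext
        intro w
        apply Subtype.ext
        show τ ((1 : H') : H) w = w
        rw [Subgroup.coe_one, map_one]
        rfl
      map_mul' := by
        intro x y
        apply LinearEquiv.ext
        intro w
        apply Subtype.ext
        show τ ((x * y : H') : H) w = τ x (τ y w)
        rw [Subgroup.coe_mul, map_mul]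
        rfl }
  have hτ' : Function.Injective τ' := by
    rw [injective_iff_map_eq_one]
    intro h hh
    apply Subtype.ext
    apply hτ
    rw [Subgroup.coe_one, map_one]
    apply LinearEquiv.ext
    intro w
    show τ h w = w
    have h1 : ∀ k, τ (h : H) (v k) = v k := by
      intro k
      have := congrArg (fun e : Rat ≃ₗ[MonoidAlgebra A (K j)] Rat =>
        ((e ⟨v k, hvR k⟩ : Rat) : W)) hh
      exact this
    have h2 : (ρ (h : H)⁻¹).val = 1 := by
      ext k l
      have h6 := congrArg κ (h1 k)
      rw [hκτ, hκv, Matrix.single_one_vecMul] at h6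
      have h7 : (ρ (h : H)⁻¹).val k l = (Pi.single k 1 : Fin r → D) l := congrFun h6 l
      rw [h7, Matrix.one_apply, Pi.single_apply]
      by_cases hkl : k = l
      · rw [if_pos hkl, if_pos hkl.symm]
      · rw [if_neg hkl, if_neg fun h' => hkl h'.symm]
    apply hf
    funext n
    apply hjR
    rw [hβ, hβ, hκτ, h2, Matrix.vecMul_one]
  have hfR : ∀ w : Rat, ∀ n, f w n ∈ iA.range := by
    intro w n
    refine gu_sat q hq (K j) inferInstance F hFi jj hjj e he _ ?_
    have h1 := hβ w n
    rw [RingHom.comp_apply] at h1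
    rw [h1]
    exact e.range.sum_mem fun k _ => e.range.mul_mem ((hmem _).1 w.2 k) (hβr k n)
  choose g hg using hfR
  let f' : Rat →ₗ[MonoidAlgebra A (K j)] (Fin N' → MonoidAlgebra A (K j)) :=
    { toFun := fun w n => g w n
      map_add' := fun w w' => by
        funext n
        apply hKiA
        show iA (g (w + w') n) = iA (g w n + g w' n)
        rw [map_add, hg, hg, hg]
        show f ((w : W) + (w' : W)) n = f w n + f w' n
        rw [map_add]
        rfl
      map_smul' := fun x w => by
        funext n
        apply hKiA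
        show iA (g (x • w) n) = iA (x * g w n)
        rw [map_mul, hg, hg]
        show f (iA x • (w : W)) n = iA x * f w n
        rw [map_smul]
        rfl }
  have hf' : Function.Injective f' := by
    intro w w' hww
    apply Subtype.ext
    apply hf
    funext n
    rw [← hg w n, ← hg w' n]
    exact congrArg iA (congrFun hww n)
  have hkey : ∀ (w : Rat) (n : Fin N') (c : Dj),
      e (c * jj (MonoidAlgebra.mapRingHom (K j) q (g w n))) =
        e c * F (MonoidAlgebra.mapRingHom N q (f w n)) := by
    intro w n c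
    rw [map_mul, ← hcomm, hg]
  refine ih j Dj jj hjj N' Rat f' hf' H' τ' hτ' ?_
  intro h m w c hw n
  have h1 := hresp h m (fun k => (w k : W)) (fun k => e (c k)) (fun n => ?_) n
  · apply hei
    rw [map_zero, map_sum, ← h1]
    refine Finset.sum_congr rfl fun k _ => ?_
    exact hkey (τ' h (w k)) n (c k)
  · have h2 := congrArg e (hw n)
    rw [map_zero, map_sum] at h2
    rw [← h2]
    refine Finset.sum_congr rfl fun k _ => ?_
    exact (hkey (w k) n (c k)).symm

end Pool.Agent.H36.GZ
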