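import Pool.Agent.H36.GZ.Base

/-!
# Project GZ: the degree function of the Laurent polynomial ring
-/

set_option autoImplicit false

namespace Pool.Agent.H36.GZ

open Pool.Agent.H66.NCL Pool.Agent.H36.OX Pool.Agent.H36.GX

universe u

namespace Gauss

variable {A : Type u} [Ring A] {d : A → ℤ}

private lemma one_ne (h : IsDeg d) : (1 : A) ≠ 0 := by
  obtain ⟨t, ht, -⟩ := h.one
  intro h1
  apply ht
  rw [← mul_one t, h1, mul_zero]

private lemma d_one (h : IsDeg d) : d 1 = 0 := by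
  have h1 := (h.mul 1 1 (one_ne h) (one_ne h)).2
  rw [one_mul] at h1
  omega

private lemma d_neg (h : IsDeg d) (x : A) : d (-x) = d x := by
  by_cases hx : x = 0
  · rw [hx, neg_zero]
  have h1 : (-1 : A) ≠ 0 := neg_ne_zero.2 (one_ne h)
  have h2 := (h.mul (-1) (-1) h1 h1).2
  rw [neg_mul_neg, one_mul, d_one h] at h2
  have h3 := (h.mul (-1) x h1 hx).2
  rw [neg_one_mul] at h3
  omega

private lemma add_lt (h : IsDeg d) {x y : A} {N : ℤ} (hx : x ≠ 0 → d x < N) (hy : y ≠ 0 → d y < N)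
    (hxy : x + y ≠ 0) : d (x + y) < N := by
  by_cases h1 : x = 0
  · subst h1
    rw [zero_add] at hxy ⊢
    exact hy hxy
  by_cases h2 : y = 0
  · subst h2
    rw [add_zero] at hxy ⊢
    exact hx hxy
  exact lt_of_le_of_lt (h.add x y h1 h2 hxy) (max_lt (hx h1) (hy h2))

private lemma sum_lt (h : IsDeg d) {N : ℤ} {I : Type} (s : Finset I) (f : I → A)
    (hf : ∀ k ∈ s, f k ≠ 0 → d (f k) < N) (hs : ∑ k ∈ s, f k ≠ 0) : d (∑ k ∈ s, f k) < N := by
  classical
  induction s using Finset.induction_on with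
  | empty => exact absurd Finset.sum_empty hs
  | insert a s ha ih =>
    rw [Finset.sum_insert ha] at hs ⊢
    exact add_lt h (hf a (Finset.mem_insert_self a s))
      (fun h1 => ih (fun k hk => hf k (Finset.mem_insert_of_mem hk)) h1) hs

private lemma add_eq (h : IsDeg d) {x y : A} (hx : x ≠ 0) (hy : y ≠ 0 → d y < d x) :
    x + y ≠ 0 ∧ d (x + y) = d x := by
  by_cases h2 : y = 0
  · subst h2
    rw [add_zero]
    exact ⟨hx, rfl⟩
  have h3 := hy h2
  have h4 : x + y ≠ 0 := by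
    intro h5
    rw [eq_neg_of_add_eq_zero_left h5, d_neg h] at h3
    exact lt_irrefl _ h3
  refine ⟨h4, le_antisymm ((h.add x y hx h2 h4).trans (max_le le_rfl h3.le)) ?_⟩
  have h5 := h.add (x + y) (-y) h4 (neg_ne_zero.2 h2) (by rwa [add_neg_cancel_right])
  rw [add_neg_cancel_right, d_neg h] at h5
  rcases le_max_iff.1 h5 with h6 | h6
  · exact h6
  · omega

/-- all coefficients have degree plus exponent at most `N` -/
private def Bd (d : A → ℤ) (x : AddMonoidAlgebra A ℤ) (N : ℤ) : Prop :=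
  ∀ n, x.coeff n ≠ 0 → d (x.coeff n) + n ≤ N

private lemma exists_top (d : A → ℤ) {x : AddMonoidAlgebra A ℤ} (hx : x ≠ 0) :
    ∃ N n₀, x.coeff n₀ ≠ 0 ∧ d (x.coeff n₀) + n₀ = N ∧ Bd d x N ∧
      ∀ n, n₀ < n → x.coeff n ≠ 0 → d (x.coeff n) + n < N := by
  classical
  have hs : x.coeff.support.Nonempty := by
    rw [Finsupp.support_nonempty_iff]
    exact fun h => hx (AddMonoidAlgebra.coeff_injective h)
  obtain ⟨k, hk, hkm⟩ := x.coeff.support.exists_max_image (fun n => d (x.coeff n) + n) hs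
  have hT : (x.coeff.support.filter fun n => d (x.coeff n) + n = d (x.coeff k) + k).Nonempty :=
    ⟨k, Finset.mem_filter.2 ⟨hk, rfl⟩⟩
  obtain ⟨n₀, hn₀, hn₀m⟩ := Finset.exists_max_image _ (fun n : ℤ => n) hT
  rw [Finset.mem_filter] at hn₀
  have hb : Bd d x (d (x.coeff k) + k) := fun n hn => hkm n (Finsupp.mem_support_iff.2 hn)
  refine ⟨d (x.coeff k) + k, n₀, Finsupp.mem_support_iff.1 hn₀.1, hn₀.2, hb, ?_⟩
  intro n hn hxn
  refine lt_of_le_of_ne (hb n hxn) fun h1 => ?_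
  have h2 := hn₀m n (Finset.mem_filter.2 ⟨Finsupp.mem_support_iff.2 hxn, h1⟩)
  omega

/-- the degree -/
private noncomputable def dL (d : A → ℤ) (x : AddMonoidAlgebra A ℤ) : ℤ :=
  open Classical in if hx : x ≠ 0 then (exists_top d hx).choose else 0

private lemma dL_spec (d : A → ℤ) {x : AddMonoidAlgebra A ℤ} (hx : x ≠ 0) :
    ∃ n₀, x.coeff n₀ ≠ 0 ∧ d (x.coeff n₀) + n₀ = dL d x ∧ Bd d x (dL d x) ∧
      ∀ n, n₀ < n → x.coeff n ≠ 0 → d (x.coeff n) + n < dL d x := by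
  classical
  have h1 : dL d x = (exists_top d hx).choose := by
    unfold dL
    rw [dif_pos hx]
  rw [h1]
  exact (exists_top d hx).choose_spec

private lemma dL_lt {x : AddMonoidAlgebra A ℤ} (hx : x ≠ 0) {N : ℤ}
    (h : ∀ n, x.coeff n ≠ 0 → d (x.coeff n) < N - n) : dL d x < N := by
  obtain ⟨n₀, h1, h2, -, -⟩ := dL_spec d hx
  have := h n₀ h1
  omega

private lemma dL_eq {x : AddMonoidAlgebra A ℤ} {N n₀ : ℤ} (h0 : x.coeff n₀ ≠ 0)
    (h1 : d (x.coeff n₀) + n₀ = N) (h2 : ∀ n, x.coeff n ≠ 0 → d (x.coeff n) < N + 1 - n) :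
    x ≠ 0 ∧ dL d x = N := by
  have hx : x ≠ 0 := by
    rintro rfl
    exact h0 rfl
  refine ⟨hx, ?_⟩
  obtain ⟨m₀, -, -, h3, -⟩ := dL_spec d hx
  have h4 := dL_lt hx h2
  have h5 := h3 n₀ h0
  omega

private lemma dL_mul (h : IsDeg d) {x y : AddMonoidAlgebra A ℤ} (hx : x ≠ 0) (hy : y ≠ 0) :
    x * y ≠ 0 ∧ dL d (x * y) = dL d x + dL d y := by
  classical
  obtain ⟨n₀, hn0, hn1, hn2, hn3⟩ := dL_spec d hx
  obtain ⟨m₀, hm0, hm1, hm2, hm3⟩ := dL_spec d hy
  have key : (x * y).coeff (n₀ + m₀) ≠ 0 ∧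
      d ((x * y).coeff (n₀ + m₀)) = d (x.coeff n₀) + d (y.coeff m₀) := by
    have e1 : (x * y).coeff (n₀ + m₀) = x.coeff n₀ * y.coeff m₀ +
        ∑ n ∈ x.coeff.support.erase n₀, x.coeff n * y.coeff (-n + (n₀ + m₀)) := by
      rw [AddMonoidAlgebra.coeff_mul_apply_left, Finsupp.sum,
        ← Finset.add_sum_erase _ _ (Finsupp.mem_support_iff.2 hn0)]
      rw [neg_add_cancel_left]
    obtain ⟨p1, p2⟩ := h.mul _ _ hn0 hm0
    rw [e1, ← p2]
    refine add_eq h p1 fun h1 => ?_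
    rw [p2]
    refine sum_lt h _ _ ?_ h1
    intro n hn hne
    rw [Finset.mem_erase] at hn
    have q1 : x.coeff n ≠ 0 := fun h2 => hne (by rw [h2, zero_mul])
    have q2 : y.coeff (-n + (n₀ + m₀)) ≠ 0 := fun h2 => hne (by rw [h2, mul_zero])
    rw [(h.mul _ _ q1 q2).2]
    rcases lt_or_gt_of_ne hn.1 with h2 | h2
    · have r1 := hn2 n q1
      have r2 := hm3 _ (by omega) q2
      omega
    · have r1 := hn3 n h2 q1
      have r2 := hm2 _ q2
      omega
  refine dL_eq key.1 (by rw [key.2]; omega) ?_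
  intro g hg
  rw [AddMonoidAlgebra.coeff_mul_apply_left, Finsupp.sum] at hg ⊢
  refine sum_lt h _ _ ?_ hg
  intro n hn hne
  have q1 : x.coeff n ≠ 0 := fun h2 => hne (by rw [h2, zero_mul])
  have q2 : y.coeff (-n + g) ≠ 0 := fun h2 => hne (by rw [h2, mul_zero])
  rw [(h.mul _ _ q1 q2).2]
  have r1 := hn2 n q1
  have r2 := hm2 _ q2
  omega

private lemma dL_add (h : IsDeg d) {x y : AddMonoidAlgebra A ℤ} (hx : x ≠ 0) (hy : y ≠ 0)
    (hxy : x + y ≠ 0) : dL d (x + y) ≤ max (dL d x) (dL d y) := by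
  obtain ⟨n₀, -, -, hn2, -⟩ := dL_spec d hx
  obtain ⟨m₀, -, -, hm2, -⟩ := dL_spec d hy
  have h1 : dL d (x + y) < max (dL d x) (dL d y) + 1 := by
    refine dL_lt hxy ?_
    intro n hn
    rw [AddMonoidAlgebra.coeff_add, Finsupp.add_apply] at hn ⊢
    refine add_lt h ?_ ?_ hn
    · intro h2
      have := hn2 n h2
      have := le_max_left (dL d x) (dL d y)
      omega
    · intro h2
      have := hm2 n h2
      have := le_max_right (dL d x) (dL d y)
      omega
  omega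

private lemma dL_comm (h : IsDeg d) (hc : ∀ x y, x * y ≠ y * x → d (x * y - y * x) < d x + d y)
    {x y : AddMonoidAlgebra A ℤ} (hxy : x * y ≠ y * x) :
    dL d (x * y - y * x) < dL d x + dL d y := by
  have hx : x ≠ 0 := by
    rintro rfl
    exact hxy (by rw [zero_mul, mul_zero])
  have hy : y ≠ 0 := by
    rintro rfl
    exact hxy (by rw [zero_mul, mul_zero])
  obtain ⟨n₀, -, -, hn2, -⟩ := dL_spec d hx
  obtain ⟨m₀, -, -, hm2, -⟩ := dL_spec d hy
  refine dL_lt (sub_ne_zero.2 hxy) ?_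
  intro g hg
  have e1 : (x * y - y * x).coeff g =
      ∑ n ∈ x.coeff.support, (x.coeff n * y.coeff (-n + g) - y.coeff (g + -n) * x.coeff n) := by
    rw [Finset.sum_sub_distrib]
    show (x * y).coeff g - (y * x).coeff g = _
    rw [AddMonoidAlgebra.coeff_mul_apply_left, AddMonoidAlgebra.coeff_mul_apply_right]
    rfl
  rw [e1] at hg ⊢
  refine sum_lt h _ _ ?_ hg
  intro n hn hne
  rw [add_comm g (-n)] at hne ⊢
  have h1 : x.coeff n * y.coeff (-n + g) ≠ y.coeff (-n + g) * x.coeff n := sub_ne_zero.1 hne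
  have q1 : x.coeff n ≠ 0 := fun h2 => h1 (by rw [h2, zero_mul, mul_zero])
  have q2 : y.coeff (-n + g) ≠ 0 := fun h2 => h1 (by rw [h2, zero_mul, mul_zero])
  have r0 := hc _ _ h1
  have r1 := hn2 n q1
  have r2 := hm2 _ q2
  omega

private lemma dL_single {a : A} (ha : a ≠ 0) (k : ℤ) :
    AddMonoidAlgebra.single k a ≠ 0 ∧ dL d (AddMonoidAlgebra.single k a) = d a + k := by
  have h1 : (AddMonoidAlgebra.single k a).coeff k = a := by
    rw [AddMonoidAlgebra.coeff_single, Finsupp.single_eq_same]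
  refine dL_eq (n₀ := k) (by rwa [h1]) (by rw [h1]) ?_
  intro n hn
  have h2 : n = k := by
    by_contra h3
    apply hn
    rw [AddMonoidAlgebra.coeff_single, Finsupp.single_eq_of_ne h3]
  subst h2
  rw [h1]
  omega

end Gauss

theorem exists_laur {A : Type u} [Ring A] {d : A → ℤ} (h : IsDeg d)
    (hc : ∀ x y, x * y ≠ y * x → d (x * y - y * x) < d x + d y) :
    ∃ (S : Type u) (_ : Ring S) (i : A →+* S) (dS : S → ℤ) (t t' : S), IsDeg dS ∧
      (∀ a, a ≠ 0 → i a ≠ 0 ∧ dS (i a) = d a) ∧ t * t' = 1 ∧ (∀ x, t * x = x * t) ∧ dS t = 1 ∧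
      ∀ x y, x * y ≠ y * x → dS (x * y - y * x) < dS x + dS y := by
  have h1 := Gauss.dL_single (d := d) (Gauss.one_ne h) 1
  rw [Gauss.d_one h, zero_add] at h1
  refine ⟨AddMonoidAlgebra A ℤ, inferInstance, AddMonoidAlgebra.singleZeroRingHom, Gauss.dL d,
    AddMonoidAlgebra.single 1 1, AddMonoidAlgebra.single (-1) 1,
    ⟨fun x y hx hy => Gauss.dL_mul h hx hy, fun x y hx hy hxy => Gauss.dL_add h hx hy hxy,
      ⟨_, h1.1, h1.2⟩⟩, ?_, ?_, ?_, h1.2, fun x y hxy => Gauss.dL_comm h hc hxy⟩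
  · intro a ha
    have h2 := Gauss.dL_single (d := d) ha 0
    rw [add_zero] at h2
    exact h2
  · rw [AddMonoidAlgebra.single_mul_single, mul_one, add_neg_cancel]
    rfl
  · intro x
    exact AddMonoidAlgebra.single_commute (fun m => AddCommute.all _ _) (fun r => Commute.one_left r) x

end Pool.Agent.H36.GZ
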