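import Pool.Agent.H36.GZ.Alm
import Pool.Agent.H36.OX.Lat
import Pool.Agent.H36.OX.Rep

/-!
# The step: from `A` to `R`, without fractions
-/

set_option autoImplicit false

namespace Pool.Agent.H36.GZ

open Pool.Agent.H66.NCL Pool.Agent.H36.OX Pool.Agent.H36.GX

universe u

section
variable {D : Type u} [DivisionRing D] {nv : D → ℝ}

private theorem st_one (h : IsUltra nv) : nv 1 = 1 := by
  have h1 : nv 1 ≠ 0 := fun hh => one_ne_zero ((h.eq_zero 1).mp hh)
  exact mul_right_cancel₀ h1 (by rw [← h.mul, one_mul, one_mul])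

private theorem st_pow (h : IsUltra nv) (x : D) (n : ℕ) : nv (x ^ n) = nv x ^ n := by
  induction n with
  | zero => rw [pow_zero, pow_zero, st_one h]
  | succ n ih => rw [pow_succ, pow_succ, h.mul, ih]

private theorem st_inv (h : IsUltra nv) {x : D} (hx : x ≠ 0) : nv x⁻¹ = (nv x)⁻¹ := by
  refine eq_inv_of_mul_eq_one_left ?_
  rw [← h.mul, inv_mul_cancel₀ hx, st_one h]

private theorem st_sum (h : IsUltra nv) {α : Type*} (s : Finset α) (f : α → D) {C : ℝ}
    (hC : 0 ≤ C) (hf : ∀ x ∈ s, nv (f x) ≤ C) : nv (∑ x ∈ s, f x) ≤ C := by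
  classical
  induction s using Finset.induction_on with
  | empty => rw [Finset.sum_empty, (h.eq_zero 0).mpr rfl]; exact hC
  | insert a s ha ih =>
    rw [Finset.sum_insert ha]
    refine (h.add_le_max _ _).trans (max_le (hf a (Finset.mem_insert_self _ _)) ?_)
    exact ih fun x hx => hf x (Finset.mem_insert_of_mem hx)

/-- scaling: an element `c` with `c e_k ∈ M` -/
private theorem st_scale (h : IsDisc nv) {r : ℕ} {M : AddSubgroup (Fin r → D)} (hM : IsLat nv M) :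
    ∃ c : D, c ≠ 0 ∧ (∀ k, c • (Pi.single k 1 : Fin r → D) ∈ M) ∧
      (∀ x : D, nv x ≤ 1 → ∀ m, c • m ∈ M → c • (x • m) ∈ M) ∧
      ∃ K : ℝ, 0 ≤ K ∧ ∀ m, c • m ∈ M → ∀ i, nv (m i) ≤ K := by
  have hU := h.toIsUltra
  obtain ⟨ϖ, h0, h1, -⟩ := h.disc
  obtain ⟨b, hb0, hb⟩ := hM.ball
  obtain ⟨C, hC⟩ := hM.bdd
  obtain ⟨n, hn⟩ := exists_pow_lt_of_lt_one hb0 h1
  have hϖ : ϖ ≠ 0 := fun hh => by
    rw [hh, (hU.eq_zero 0).mpr rfl] at h0
    exact lt_irrefl _ h0
  have hc : ϖ ^ n ≠ 0 := pow_ne_zero _ hϖ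
  have hc0 : 0 < nv (ϖ ^ n) := by
    rw [st_pow hU]
    positivity
  refine ⟨ϖ ^ n, hc, fun k => ?_, fun x hx m hm => ?_, |C| * (nv (ϖ ^ n))⁻¹, by positivity,
    fun m hm i => ?_⟩
  · refine hb _ fun i => ?_
    show nv (ϖ ^ n * (Pi.single k 1 : Fin r → D) i) ≤ b
    by_cases hik : i = k
    · rw [hik, Pi.single_eq_same, mul_one, st_pow hU]
      exact hn.le
    · rw [Pi.single_eq_of_ne hik, mul_zero, (hU.eq_zero 0).mpr rfl]
      exact hb0.le
  · have h2 : ϖ ^ n • (x • m) = (ϖ ^ n * x * (ϖ ^ n)⁻¹) • (ϖ ^ n • m) := by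
      rw [smul_smul, smul_smul, mul_assoc, inv_mul_cancel₀ hc, mul_one]
    rw [h2]
    refine hM.smul _ ?_ _ hm
    rw [hU.mul, hU.mul, st_inv hU hc, mul_comm (nv (ϖ ^ n)), mul_assoc, mul_inv_cancel₀ hc0.ne',
      mul_one]
    exact hx
  · have h2 : m i = (ϖ ^ n)⁻¹ * ((ϖ ^ n • m) i) := by
      show m i = (ϖ ^ n)⁻¹ * (ϖ ^ n * m i)
      rw [inv_mul_cancel_left₀ hc]
    rw [h2, hU.mul, st_inv hU hc, mul_comm]
    exact mul_le_mul_of_nonneg_right ((hC _ hm i).trans (le_abs_self C)) (by positivity)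

private theorem st_bound (h : IsUltra nv) {r N : ℕ} (β : Fin r → Fin N → D) {K : ℝ} (hK : 0 ≤ K) :
    ∃ C : ℝ, ∀ (x : Fin r → D), (∀ k, nv (x k) ≤ K) → ∀ n, nv (∑ k, x k * β k n) ≤ C := by
  classical
  refine ⟨K * ∑ k, ∑ n, nv (β k n), fun x hx n => ?_⟩
  have h0 : 0 ≤ ∑ k, ∑ n, nv (β k n) :=
    Finset.sum_nonneg fun i _ => Finset.sum_nonneg fun j _ => h.nonneg _
  refine st_sum h _ _ (mul_nonneg hK h0) fun k _ => ?_
  rw [h.mul]
  refine mul_le_mul (hx k) ?_ (h.nonneg _) hK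
  have h1 : nv (β k n) ≤ ∑ n, nv (β k n) :=
    Finset.single_le_sum (f := fun n => nv (β k n)) (fun j _ => h.nonneg _) (Finset.mem_univ n)
  have h2 : ∑ n, nv (β k n) ≤ ∑ k, ∑ n, nv (β k n) :=
    Finset.single_le_sum (f := fun k => ∑ n, nv (β k n))
      (fun i _ => Finset.sum_nonneg fun j _ => h.nonneg _) (Finset.mem_univ k)
  exact h1.trans h2

end

theorem PMD.step {A R E D : Type u} [Ring A] [Ring R] [DivisionRing E] [DivisionRing D]
    (i : A →+* R) (k : A →+* E) (j : R →+* D) (e : E →+* D) (hk : Function.Injective k)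
    (hj : Function.Injective j) (hcomm : ∀ a, e (k a) = j (i a)) (nv₁ nv₂ : D → ℝ) (h₁ : IsDisc nv₁) (h₂ : IsDisc nv₂)
    (hle₁ : ∀ a, nv₁ (j (i a)) ≤ 1) (hle₂ : ∀ a, nv₂ (j (i a)) ≤ 1)
    (hbdd : ∀ C : ℝ, ∃ (m : ℕ) (t : Fin m → R),
      (∀ f : Fin m → E, ∑ l, e (f l) * j (t l) = 0 → f = 0) ∧
      ∀ x : R, nv₁ (j x) ≤ C → nv₂ (j x) ≤ C → ∃ f : Fin m → A, x = ∑ l, i (f l) * t l)
    (hA : PMD k) : PMD j := by
  classical
  intro N W _ _ f hf H _ τ hτ hresp
  obtain ⟨r, ρ, κ, v, β, hκs, hκτ, hκv, hβ⟩ := exists_repD j hj f hf τ hresp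
  refine ce_of_lat2 h₁ h₂ ρ fun M₁ M₂ hM₁ hM₂ => ?_
  obtain ⟨c₁, hc₁, hc₁v, hc₁x, K₁, hK₁, hb₁⟩ := st_scale h₁ hM₁
  obtain ⟨c₂, hc₂, hc₂v, hc₂x, K₂, hK₂, hb₂⟩ := st_scale h₂ hM₂
  obtain ⟨C₁, hC₁⟩ := st_bound h₁.toIsUltra β hK₁
  obtain ⟨C₂, hC₂⟩ := st_bound h₂.toIsUltra β hK₂
  obtain ⟨m, t, ht, hrep⟩ := hbdd (max C₁ C₂)
  letI : Module A W := Module.compHom W i
  have hsmul : ∀ (a : A) (w : W), a • w = i a • w := fun _ _ => rfl
  let W' : Submodule A W :=
    { carrier := {w | c₁ • κ w ∈ M₁ ∧ c₂ • κ w ∈ M₂}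
      zero_mem' := by
        show c₁ • κ 0 ∈ M₁ ∧ c₂ • κ 0 ∈ M₂
        rw [map_zero, smul_zero, smul_zero]
        exact ⟨M₁.zero_mem, M₂.zero_mem⟩
      add_mem' := by
        rintro a b ⟨ha1, ha2⟩ ⟨hb1, hb2⟩
        show c₁ • κ (a + b) ∈ M₁ ∧ c₂ • κ (a + b) ∈ M₂
        rw [map_add, smul_add, smul_add]
        exact ⟨M₁.add_mem ha1 hb1, M₂.add_mem ha2 hb2⟩
      smul_mem' := by
        rintro a w ⟨hw1, hw2⟩
        show c₁ • κ (a • w) ∈ M₁ ∧ c₂ • κ (a • w) ∈ M₂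
        rw [hsmul, hκs]
        exact ⟨hc₁x _ (hle₁ a) _ hw1, hc₂x _ (hle₂ a) _ hw2⟩ }
  have hW' : ∀ w : W, w ∈ W' ↔ (c₁ • κ w ∈ M₁ ∧ c₂ • κ w ∈ M₂) := fun _ => Iff.rfl
  -- the stabilizer acts on `W'`
  have hstab : ∀ s ∈ stabL ρ M₁ ⊓ stabL ρ M₂, ∀ w ∈ W', τ s w ∈ W' := by
    rintro s ⟨hs1, hs2⟩ w ⟨hw1, hw2⟩
    rw [hW', hκτ, ← Matrix.smul_vecMul, ← Matrix.smul_vecMul]
    exact ⟨((stabL ρ M₁).inv_mem hs1 _).mpr hw1, ((stabL ρ M₂).inv_mem hs2 _).mpr hw2⟩
  let S := ↥(stabL ρ M₁ ⊓ stabL ρ M₂)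
  have hinv : ∀ (s : S) (w : W), τ (s⁻¹ : S).1 (τ s.1 w) = w := by
    intro s w
    have h3 : (τ (s⁻¹ : S).1 * τ s.1) w = w := by
      rw [← map_mul]
      have h4 : (s⁻¹ : S).1 * s.1 = 1 := by
        rw [Subgroup.coe_inv, inv_mul_cancel]
      rw [h4, map_one]
      rfl
    exact h3
  have hinv' : ∀ (s : S) (w : W), τ s.1 (τ (s⁻¹ : S).1 w) = w := by
    intro s w
    have h3 := hinv s⁻¹ w
    rwa [inv_inv] at h3
  let τ' : S →* (W' ≃ₗ[A] W') :=
    { toFun := fun s =>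
        { toFun := fun w => ⟨τ s.1 w.1, hstab s.1 s.2 w.1 w.2⟩
          map_add' := fun a b => Subtype.ext (map_add (τ s.1) a.1 b.1)
          map_smul' := fun a w => Subtype.ext (map_smul (τ s.1) (i a) w.1)
          invFun := fun w => ⟨τ (s⁻¹ : S).1 w.1, hstab (s⁻¹ : S).1 (s⁻¹ : S).2 w.1 w.2⟩
          left_inv := fun w => Subtype.ext (hinv s w.1)
          right_inv := fun w => Subtype.ext (hinv' s w.1) }
      map_one' := by
        ext w
        show τ (1 : S).1 w.1 = w.1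
        rw [Subgroup.coe_one, map_one]
        rfl
      map_mul' := fun a b => by
        ext w
        show τ (a * b : S).1 w.1 = τ a.1 (τ b.1 w.1)
        rw [Subgroup.coe_mul, map_mul]
        rfl }
  have hv : ∀ k, v k ∈ W' := by
    intro k
    rw [hW', hκv]
    exact ⟨hc₁v k, hc₂v k⟩
  have hτ' : Function.Injective τ' := by
    intro s s' hss
    have h3 : ∀ k, τ s.1 (v k) = τ s'.1 (v k) := by
      intro k
      have h4 := congrArg (fun z : W' ≃ₗ[A] W' => (z ⟨v k, hv k⟩).1) hss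
      exact h4
    have h5 : (ρ (s.1)⁻¹).val = (ρ (s'.1)⁻¹).val := by
      ext k l
      have h6 := congrArg κ (h3 k)
      rw [hκτ, hκτ, hκv, Matrix.single_one_vecMul, Matrix.single_one_vecMul] at h6
      exact congrFun h6 l
    refine Subtype.ext (hτ (LinearEquiv.ext fun w => hf (funext fun n => hj ?_)))
    rw [hβ, hβ, hκτ, hκτ, h5]
  -- the embedding
  have hx : ∀ (w : W') (n : Fin N), ∃ g : Fin m → A, f w.1 n = ∑ k, i (g k) * t k := by
    intro w n
    obtain ⟨hw1, hw2⟩ := (hW' w.1).mp w.2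
    refine hrep _ ?_ ?_
    · show nv₁ (j (f w.1 n)) ≤ _
      rw [hβ]
      exact (hC₁ _ (fun k => hb₁ _ hw1 k) n).trans (le_max_left _ _)
    · show nv₂ (j (f w.1 n)) ≤ _
      rw [hβ]
      exact (hC₂ _ (fun k => hb₂ _ hw2 k) n).trans (le_max_right _ _)
  choose g hg using hx
  have huniq : ∀ a b : Fin m → A, ∑ k, i (a k) * t k = ∑ k, i (b k) * t k → a = b := by
    intro a b hab
    have h3 := ht (fun l => k (a l) - k (b l)) (by
      have h4 := congrArg j hab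
      rw [map_sum, map_sum, ← sub_eq_zero, ← Finset.sum_sub_distrib] at h4
      rw [← h4]
      refine Finset.sum_congr rfl fun l _ => ?_
      rw [map_sub, hcomm, hcomm, map_mul, map_mul, sub_mul])
    funext l
    exact hk (sub_eq_zero.mp (congrFun h3 l))
  let F : W' →ₗ[A] (Fin (N * m) → A) :=
    { toFun := fun w q => g w (finProdFinEquiv.symm q).1 (finProdFinEquiv.symm q).2
      map_add' := fun a b => by
        funext q
        refine congrFun (huniq (g (a + b) (finProdFinEquiv.symm q).1)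
          (g a (finProdFinEquiv.symm q).1 + g b (finProdFinEquiv.symm q).1) ?_) _
        rw [← hg]
        show f (a.1 + b.1) _ = _
        rw [map_add, Pi.add_apply, hg, hg, ← Finset.sum_add_distrib]
        refine Finset.sum_congr rfl fun k _ => ?_
        rw [Pi.add_apply, map_add, add_mul]
      map_smul' := fun x a => by
        funext q
        refine congrFun (huniq (g (x • a) (finProdFinEquiv.symm q).1)
          (x • g a (finProdFinEquiv.symm q).1) ?_) _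
        rw [← hg]
        show f (i x • a.1) _ = _
        rw [map_smul, Pi.smul_apply, hg, Finset.smul_sum]
        refine Finset.sum_congr rfl fun k _ => ?_
        rw [Pi.smul_apply, smul_eq_mul, smul_eq_mul, map_mul, mul_assoc] }
  have hF : Function.Injective F := by
    intro a b hab
    refine Subtype.ext (hf (funext fun n => ?_))
    rw [hg, hg]
    refine Finset.sum_congr rfl fun k _ => ?_
    have h3 := congrFun hab (finProdFinEquiv (n, k))
    have h4 : g a n k = g b n k := by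
      have h5 : ∀ w : W', F w (finProdFinEquiv (n, k)) = g w n k := by
        intro w
        show g w (finProdFinEquiv.symm (finProdFinEquiv (n, k))).1
          (finProdFinEquiv.symm (finProdFinEquiv (n, k))).2 = _
        rw [Equiv.symm_apply_apply]
      rw [h5, h5] at h3
      exact h3
    rw [h4]
  -- the relations
  have hFg : ∀ (w : W') (n : Fin N) (l : Fin m), F w (finProdFinEquiv (n, l)) = g w n l := by
    intro w n l
    show g w (finProdFinEquiv.symm (finProdFinEquiv (n, l))).1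
      (finProdFinEquiv.symm (finProdFinEquiv (n, l))).2 = _
    rw [Equiv.symm_apply_apply]
  have hjf : ∀ (w : W') (n : Fin N), j (f w.1 n) = ∑ l, e (k (g w n l)) * j (t l) := by
    intro w n
    rw [hg, map_sum]
    refine Finset.sum_congr rfl fun l _ => ?_
    rw [map_mul, hcomm]
  have hsum : ∀ (M : ℕ) (w : Fin M → W') (c : Fin M → E) (n : Fin N),
      ∑ q, e (c q) * j (f (w q).1 n) =
        ∑ l, e (∑ q, c q * k (F (w q) (finProdFinEquiv (n, l)))) * j (t l) := by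
    intro M w c n
    have h3 : ∀ l, e (∑ q, c q * k (F (w q) (finProdFinEquiv (n, l)))) * j (t l) =
        ∑ q, e (c q) * (e (k (g (w q) n l)) * j (t l)) := by
      intro l
      rw [map_sum, Finset.sum_mul]
      refine Finset.sum_congr rfl fun q _ => ?_
      rw [map_mul, hFg, mul_assoc]
    rw [Finset.sum_congr rfl fun l _ => h3 l, Finset.sum_comm]
    refine Finset.sum_congr rfl fun q _ => ?_
    rw [hjf, Finset.mul_sum]
  refine hA (N * m) W' F hF S τ' hτ' fun s M w c hc n => ?_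
  have h3 : ∀ n, ∑ q, e (c q) * j (f (w q).1 n) = 0 := by
    intro n
    rw [hsum]
    refine Finset.sum_eq_zero fun l _ => ?_
    rw [hc, map_zero, zero_mul]
  have h4 := hresp s.1 M (fun q => (w q).1) (fun q => e (c q)) h3
  obtain ⟨⟨n', l⟩, rfl⟩ := finProdFinEquiv.surjective n
  have h5 : ∑ l, e (∑ q, c q * k (F (τ' s (w q)) (finProdFinEquiv (n', l)))) * j (t l) = 0 := by
    rw [← hsum]
    exact h4 n'
  exact congrFun (ht (fun l => ∑ q, c q * k (F (τ' s (w q)) (finProdFinEquiv (n', l)))) h5) l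

end Pool.Agent.H36.GZ
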