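import Pool.Agent.H36.GZ.Cohn
import Pool.Agent.H36.GZ.Alm
import Pool.Agent.H36.GZ.StepD
import Pool.Agent.H36.GZ.FracU
import Pool.Agent.H36.GZ.DomE
import Pool.Agent.H36.GZ.GStep
import Pool.Agent.H36.GZ.GUnion
import Pool.Agent.H36.OX.Main
import Pool.Agent.H36.GX.Cls
import Pool.Agent.H36.GY.Cls

/-!
# Project GZ: matrix groups over monoid algebras with almost commutative coefficients

Assembly: an almost commutative domain `A` is embedded in a valued division ring `E`
(`exists_cohn`), the embedding has property `PMD`, and `PMD` passes to the group rings `A[N] → D`,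
`D` the division ring of fractions of `E[N]`, for the groups `N` of the class `TFSolv`.
-/

set_option autoImplicit false

namespace Pool.Agent.H36.GZ

open Pool.Agent.H66.NCL Pool.Agent.H36.OX Pool.Agent.H36.GX

universe u


theorem GrpPMD.solv {A E : Type u} [Ring A] [DivisionRing E] (q : A →+* E)
    (hq : Function.Injective q) (hA : PMD q) {N : Type u} [Group N] (hN : TFSolv N) :
    GrpPMD q N := by
  induction hN with
  | triv N h1 =>
    have : Subsingleton N := ⟨fun x y => by rw [h1 x, h1 y]⟩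
    intro D _ J hJ
    have h2 := (hA.comp (J.comp (MonoidAlgebra.singleOneRingHom : E →+* MonoidAlgebra E N))).of_equiv
      (MonoidAlgebra.uniqueRingEquiv N : MonoidAlgebra A N ≃+* A)
    have h3 : ((J.comp (MonoidAlgebra.singleOneRingHom : E →+* MonoidAlgebra E N)).comp q).comp
        ((MonoidAlgebra.uniqueRingEquiv N : MonoidAlgebra A N ≃+* A) : MonoidAlgebra A N →+* A) =
        J.comp (MonoidAlgebra.mapRingHom N q) := by
      refine RingHom.ext fun x => ?_
      show J (MonoidAlgebra.single 1 (q (MonoidAlgebra.uniqueRingEquiv N x))) =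
        J (MonoidAlgebra.mapRingHom N q x)
      congr 1
      apply MonoidAlgebra.coeff_injective
      ext g
      rw [h1 g]
      rw [MonoidAlgebra.coeff_single, Finsupp.single_eq_same, MonoidAlgebra.coeff_mapRingHom]
      congr 1
    rw [h3] at h2
    exact h2
  | step N₀ N i z h hz hN ih => exact GrpPMD.step q hq i z h hz hN ih
  | union N J K hdir htop hN ih => exact GrpPMD.union q hq K hdir htop hN ih

theorem AlmostComm.P_solv {A : Type u} [Ring A] (hA : AlmostComm A) {N : Type u} [Group N]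
    (hN : TFSolv N) : P.{u, u} (MonoidAlgebra A N) := by
  obtain ⟨d, h, h0, hc⟩ := hA
  obtain ⟨E, _, q, nv, hq, hnv, hnvq, hcD⟩ := exists_cohn h hc
  have h1 : PMD q := PMD.almost q hq nv hnv (fun x hx => by
    rw [hnvq, degNu_ne d hx]
    exact one_le_zpow₀ one_le_two (h0 x hx)) hcD
  obtain ⟨hd, hs⟩ := domain_solv E hN
  obtain ⟨D, _, J, hJ, -⟩ := exists_fracU (MonoidAlgebra E N)
  refine PMD.P ?_ (GrpPMD.solv q hq h1 hN D J hJ)
  exact hJ.1.comp (by
    intro x y hxy
    apply MonoidAlgebra.coeff_injective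
    ext g
    apply hq
    have h2 := congrArg (fun z => z.coeff g) hxy
    simpa using h2)

private theorem gz_equiv {N : Type u} [Group N] (hN : TFSolv N) :
    ∀ {M : Type u} [Group M] (_ : N ≃* M), TFSolv M := by
  induction hN with
  | triv N h =>
    intro M _ e
    refine TFSolv.triv M fun x => ?_
    apply e.symm.injective
    rw [map_one]
    exact h _
  | step N₀ N i z h hz hN0 _ =>
    intro M _ e
    obtain ⟨σ, hσ⟩ := h
    refine TFSolv.step N₀ M (e.toMonoidHom.comp i) (e z) ⟨σ, ?_⟩ ?_ hN0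
    · intro x
      show e z * e (i x) = e (i (σ x)) * e z
      rw [← map_mul, ← map_mul, hσ]
    · have : (fun p : N₀ × ℤ => (e.toMonoidHom.comp i) p.1 * e z ^ p.2) =
          e ∘ fun p : N₀ × ℤ => i p.1 * z ^ p.2 := by
        funext p
        show e (i p.1) * e z ^ p.2 = e (i p.1 * z ^ p.2)
        rw [map_mul, map_zpow]
      rw [this]
      exact e.bijective.comp hz
  | union N J K hdir htop _ ih =>
    intro M _ e
    refine TFSolv.union M J (fun j => (K j).map e.toMonoidHom) ?_ ?_ ?_
    · intro a b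
      obtain ⟨c, h1, h2⟩ := hdir a b
      exact ⟨c, Subgroup.map_mono h1, Subgroup.map_mono h2⟩
    · intro x
      obtain ⟨j, hj⟩ := htop (e.symm x)
      exact ⟨j, ⟨e.symm x, hj, e.apply_symm_apply x⟩⟩
    · intro j
      exact ih j ((K j).equivMapOfInjective e.toMonoidHom e.injective)

theorem good_of {A : Type u} [Ring A]
    (h : ∀ (N : Type u) [Group N], TFSolv N → P.{u, u} (MonoidAlgebra A N)) :
    Good A (fun G _ => TFSolv G) := by
  intro G _ hG
  obtain ⟨V, _, E, U, _, hU, ⟨e⟩⟩ := hG.flat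
  refine P_submonoidR e.toMonoidHom e.injective ?_
  obtain ⟨f, hf⟩ := GraphProduct.exists_const E U
  refine P_submonoidR f hf ?_
  obtain ⟨K, hK, hKs⟩ := exists_finIndex_pi U
    fun v => ⟨⊤, inferInstance, gz_equiv (hU v) Subgroup.topEquiv.symm⟩
  obtain ⟨Q, _, hQ, i, x, Pos, hpos⟩ := exists_wre hKs (V × Option (V × ((∀ v, U v) ⧸ K)))
  obtain ⟨I, _, _, ρ, hρ⟩ := exists_rho E (∀ v, U v) K Q i x Pos hpos
  exact P_gpR E (∀ v, U v) Q (fun k => h _ (TFSolv.pow hQ k)) I ρ hρ

/-- **Matrix groups over monoid algebras, with almost commutative coefficients.** -/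
theorem P_class {A : Type u} [Ring A]
    (hA : (∀ x y : A, x * y = y * x) ∨ OreTower A ∨ AlmostComm A)
    (S Γ : Type u) [Monoid S] [Group Γ] (ι : S →* Γ) (hι : Function.Injective ι)
    (hΓ : GY.GrClass Γ) : P.{u, u} (MonoidAlgebra A S) := by
  rcases hA with hA | hA | hA
  · exact GY.P_class (Or.inl hA) S Γ ι hι hΓ
  · exact GY.P_class (Or.inr hA) S Γ ι hι hΓ
  · exact P_submonoidR ι hι (hΓ.adm (A := A) _ (fun _ _ h' => h')
      (good_of fun N _ hN => hA.P_solv hN) Γ
      (It.base _ (Or.inr ⟨PUnit.unit, MonoidHom.id Γ, fun _ _ hab => hab⟩)))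

end Pool.Agent.H36.GZ
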